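import Mathlib

set_option autoImplicit false

/-!
Counting permutations with many values in prescribed small sets.
-/

namespace Pool.Agent.LibSemiorder

open Finset Nat

theorem card_fiber {n : ℕ} (S : Finset (Fin n)) (τ : S → Fin n) :
    (univ.filter fun σ : Equiv.Perm (Fin n) => (fun y : S => σ y) = τ).card ≤
      (n - S.card)! := by
  classical
  by_cases hne : ∃ σ₀ : Equiv.Perm (Fin n), (fun y : S => σ₀ y) = τ
  · obtain ⟨σ₀, h0⟩ := hne
    have h1 : (univ.filter fun σ : Equiv.Perm (Fin n) => (fun y : S => σ y) = τ).card ≤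
        (univ.filter fun ρ : Equiv.Perm (Fin n) => ∀ a, ¬ (a ∉ S) → ρ a = a).card := by
      refine Finset.card_le_card_of_injOn (fun σ => σ₀⁻¹ * σ) ?_ ?_
      · intro σ hσ
        simp only [coe_filter, mem_univ, true_and, Set.mem_ofPred_eq] at hσ ⊢
        intro a ha
        rw [not_not] at ha
        have h2 : σ a = σ₀ a := by
          have := congrFun (hσ.trans h0.symm) ⟨a, ha⟩
          exact this
        show σ₀⁻¹ (σ a) = a
        rw [h2]
        exact Equiv.symm_apply_apply σ₀ a
      · intro σ _ σ' _ h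
        exact mul_left_cancel h
    refine h1.trans (le_of_eq ?_)
    have h2 := Fintype.card_congr (Equiv.Perm.subtypeEquivSubtypePerm (fun a : Fin n => a ∉ S))
    rw [Fintype.card_perm] at h2
    have h3 : Fintype.card {a : Fin n // a ∉ S} = n - S.card := by
      rw [Fintype.card_subtype_compl]; simp
    rw [h3] at h2
    rw [h2, Fintype.card_subtype]
  · have : (univ.filter fun σ : Equiv.Perm (Fin n) => (fun y : S => σ y) = τ) = ∅ := by
      rw [filter_eq_empty_iff]
      intro σ _ h
      exact hne ⟨σ, h⟩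
    rw [this]; simp

theorem card_all {n g : ℕ} (Jf : Fin n → Finset (Fin n)) (hJ : ∀ y, (Jf y).card ≤ g)
    (S : Finset (Fin n)) :
    (univ.filter fun σ : Equiv.Perm (Fin n) => ∀ y ∈ S, σ y ∈ Jf y).card ≤
      (n - S.card)! * g ^ S.card := by
  classical
  have h1 := Finset.card_le_mul_card_image
    (f := fun σ : Equiv.Perm (Fin n) => fun y : S => σ y)
    (univ.filter fun σ : Equiv.Perm (Fin n) => ∀ y ∈ S, σ y ∈ Jf y) ((n - S.card)!) (by
      intro τ _
      refine le_trans (Finset.card_le_card ?_) (card_fiber S τ)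
      intro σ hσ
      simp only [mem_filter, mem_univ, true_and] at hσ ⊢
      exact hσ.2)
  refine h1.trans (Nat.mul_le_mul_left _ ?_)
  have h2 : ((univ.filter fun σ : Equiv.Perm (Fin n) => ∀ y ∈ S, σ y ∈ Jf y).image
      fun σ : Equiv.Perm (Fin n) => fun y : S => σ y) ⊆
      Fintype.piFinset fun y : S => Jf y := by
    intro τ hτ
    rw [mem_image] at hτ
    obtain ⟨σ, hσ, rfl⟩ := hτ
    rw [Fintype.mem_piFinset]
    intro y
    exact (mem_filter.1 hσ).2 y y.2
  refine (Finset.card_le_card h2).trans ?_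
  rw [Fintype.card_piFinset]
  have h3 : ∏ y : S, (Jf y).card ≤ ∏ _y : S, g := Finset.prod_le_prod' fun y _ => hJ y
  refine h3.trans (le_of_eq ?_)
  simp

/-- the main counting estimate -/
theorem card_many {n g : ℕ} (h : ℕ) (Jf : Fin n → Finset (Fin n)) (hJ : ∀ y, (Jf y).card ≤ g) :
    (univ.filter fun σ : Equiv.Perm (Fin n) =>
      h ≤ (univ.filter fun y => σ y ∈ Jf y).card).card * h ! ≤ n ! * g ^ h := by
  classical
  by_cases hn : h ≤ n
  · have h1 : (univ.filter fun σ : Equiv.Perm (Fin n) =>
        h ≤ (univ.filter fun y => σ y ∈ Jf y).card) ⊆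
        (powersetCard h (univ : Finset (Fin n))).biUnion fun S =>
          univ.filter fun σ : Equiv.Perm (Fin n) => ∀ y ∈ S, σ y ∈ Jf y := by
      intro σ hσ
      rw [mem_filter] at hσ
      obtain ⟨S, hS, hc⟩ := Finset.exists_subset_card_eq hσ.2
      rw [mem_biUnion]
      refine ⟨S, mem_powersetCard.2 ⟨subset_univ _, hc⟩, ?_⟩
      rw [mem_filter]
      exact ⟨mem_univ _, fun y hy => (mem_filter.1 (hS hy)).2⟩
    have h2 := (Finset.card_le_card h1).trans Finset.card_biUnion_le
    have h3 : ∑ S ∈ powersetCard h (univ : Finset (Fin n)),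
        (univ.filter fun σ : Equiv.Perm (Fin n) => ∀ y ∈ S, σ y ∈ Jf y).card ≤
        ∑ S ∈ powersetCard h (univ : Finset (Fin n)), (n - h)! * g ^ h := by
      apply Finset.sum_le_sum
      intro S hS
      have := card_all Jf hJ S
      rw [(mem_powersetCard.1 hS).2] at this
      exact this
    rw [sum_const, card_powersetCard, Finset.card_univ, Fintype.card_fin, smul_eq_mul] at h3
    calc _ ≤ (n.choose h * ((n - h)! * g ^ h)) * h ! := Nat.mul_le_mul_right _ (h2.trans h3)
      _ = (n.choose h * h ! * (n - h)!) * g ^ h := by ring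
      _ = n ! * g ^ h := by rw [Nat.choose_mul_factorial_mul_factorial hn]
  · have : (univ.filter fun σ : Equiv.Perm (Fin n) =>
        h ≤ (univ.filter fun y => σ y ∈ Jf y).card) = ∅ := by
      rw [filter_eq_empty_iff]
      intro σ _ hσ
      have := Finset.card_le_univ (univ.filter fun y => σ y ∈ Jf y)
      rw [Fintype.card_fin] at this
      omega
    rw [this]; simp

end Pool.Agent.LibSemiorder
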