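import Mathlib

set_option autoImplicit false

/-!
Semiorders, the semiorder polytope, networks and uncapacitated flow-based extensions.
-/

namespace Pool.Agent.LibSemiorder

/-- Semiorders: irreflexive relations with the two exchange properties. -/
structure IsSemiorder {α : Type} (R : α → α → Prop) : Prop where
  irrefl : ∀ a, ¬ R a a
  exch : ∀ a b c d, R a b → R c d → R a d ∨ R c b
  semi : ∀ a b c d, R a b → R b c → R a d ∨ R d c

/-- The index set of the coordinates: ordered pairs of distinct elements of `[n]`. -/
abbrev OffDiag (n : ℕ) : Type := {p : Fin n × Fin n // p.1 ≠ p.2}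

open Classical in
/-- The incidence vector of a relation. -/
noncomputable def incidence {n : ℕ} (R : Fin n → Fin n → Prop) : OffDiag n → ℝ :=
  fun p => if R p.1.1 p.1.2 then 1 else 0

/-- The semiorder polytope. -/
def semiorderPolytope (n : ℕ) : Set (OffDiag n → ℝ) :=
  convexHull ℝ {x | ∃ R : Fin n → Fin n → Prop, IsSemiorder R ∧ x = incidence R}

/-- Finite directed graphs, with parallel arcs allowed, with a source and a different sink. -/
structure Network where
  V : Type
  A : Type
  [fintypeV : Fintype V]
  [fintypeA : Fintype A]
  tail : A → V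
  head : A → V
  s : V
  t : V
  s_ne_t : s ≠ t

attribute [instance] Network.fintypeV Network.fintypeA

open Classical in
/-- The flow out of the vertex `v` minus the flow into `v`. -/
noncomputable def Network.excess (N : Network) (φ : N.A → ℝ) (v : N.V) : ℝ :=
  (∑ a, if N.tail a = v then φ a else 0) - ∑ a, if N.head a = v then φ a else 0

/-- The uncapacitated flow polyhedron of flows of value `k`. -/
def Network.flowPolyhedron (N : Network) (k : ℝ) : Set (N.A → ℝ) :=
  {φ | (∀ a, 0 ≤ φ a) ∧ (∀ v, v ≠ N.s → v ≠ N.t → N.excess φ v = 0) ∧ N.excess φ N.s = k}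

/-- The flow polyhedron of flows of value `k > 0` on `N` is an uncapacitated flow-based extension
of `P`. Its size is the number of arcs of `N`. -/
def IsFlowExtension (N : Network) (k : ℝ) {ι : Type} (P : Set (ι → ℝ)) : Prop :=
  0 < k ∧ ∃ π : (N.A → ℝ) →ₗ[ℝ] (ι → ℝ), π '' N.flowPolyhedron k = P

end Pool.Agent.LibSemiorder
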