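import Mathlib
import Pool.Agent.LibSemiorder.Defs

set_option autoImplicit false

/-!
Walks in networks and the crossing argument.
-/

namespace Pool.Agent.LibSemiorder

namespace Network

variable (N : Network)

/-- walks from `u` to `v` -/
def IsWalk : N.V → List N.A → N.V → Prop
  | u, [], v => u = v
  | u, a :: l, v => N.tail a = u ∧ IsWalk (N.head a) l v

variable {N}

theorem IsWalk.append {u v x : N.V} {l m : List N.A} (h : N.IsWalk u l v) (h' : N.IsWalk v m x) :
    N.IsWalk u (l ++ m) x := by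
  induction l generalizing u with
  | nil => rw [show u = v from h]; exact h'
  | cons a l ih => exact ⟨h.1, ih h.2⟩

theorem IsWalk.split {u x : N.V} {l m : List N.A} (h : N.IsWalk u (l ++ m) x) :
    ∃ v, N.IsWalk u l v ∧ N.IsWalk v m x := by
  induction l generalizing u with
  | nil => exact ⟨u, rfl, h⟩
  | cons a l ih =>
    obtain ⟨v, h1, h2⟩ := ih h.2
    exact ⟨v, ⟨h.1, h1⟩, h2⟩

open Classical in
/-- the arc counts of a list of arcs -/
noncomputable def cnt (l : List N.A) : N.A → ℝ := fun a => (l.count a : ℝ)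

theorem cnt_nil : cnt ([] : List N.A) = 0 := by
  funext a; simp [cnt]

open Classical in
theorem cnt_cons (a : N.A) (l : List N.A) : cnt (a :: l) = Pi.single a 1 + cnt l := by
  funext b
  simp only [cnt, List.count_cons, Pi.add_apply, Pi.single_apply]
  by_cases h : b = a
  · subst h; simp [add_comm]
  · have h' : a ≠ b := fun e => h e.symm
    simp [h, h']

theorem cnt_append (l m : List N.A) : cnt (l ++ m) = cnt l + cnt m := by
  funext a; simp [cnt, List.count_append]

theorem cnt_nonneg (l : List N.A) (a : N.A) : 0 ≤ cnt l a := Nat.cast_nonneg _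

theorem excess_add (φ ψ : N.A → ℝ) (v : N.V) :
    N.excess (φ + ψ) v = N.excess φ v + N.excess ψ v := by
  classical
  simp only [excess, Pi.add_apply]
  have e1 : ∀ f : N.A → N.V, (∑ a, if f a = v then φ a + ψ a else 0) =
      (∑ a, if f a = v then φ a else 0) + ∑ a, if f a = v then ψ a else 0 := by
    intro f
    rw [← Finset.sum_add_distrib]
    apply Finset.sum_congr rfl
    intro a _
    split_ifs <;> simp
  rw [e1, e1]; ring

theorem excess_smul (c : ℝ) (φ : N.A → ℝ) (v : N.V) :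
    N.excess (c • φ) v = c * N.excess φ v := by
  classical
  simp only [excess, Pi.smul_apply, smul_eq_mul]
  have e1 : ∀ f : N.A → N.V, (∑ a, if f a = v then c * φ a else 0) =
      c * ∑ a, if f a = v then φ a else 0 := by
    intro f
    rw [Finset.mul_sum]
    apply Finset.sum_congr rfl
    intro a _
    split_ifs <;> simp
  rw [e1, e1]; ring

open Classical in
theorem excess_single (a : N.A) (v : N.V) :
    N.excess (Pi.single a 1) v =
      (if N.tail a = v then 1 else 0) - if N.head a = v then 1 else 0 := by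
  simp only [excess]
  have e1 : ∀ f : N.A → N.V, (∑ b, if f b = v then (Pi.single a (1 : ℝ) : N.A → ℝ) b else 0) =
      if f a = v then 1 else 0 := by
    intro f
    rw [Finset.sum_eq_single a]
    · simp
    · intro b _ hb; simp [hb]
    · intro h; exact absurd (Finset.mem_univ a) h
  rw [e1, e1]

theorem excess_zero (v : N.V) : N.excess 0 v = 0 := by
  simp [excess]

open Classical in
theorem IsWalk.excess {u x : N.V} {l : List N.A} (h : N.IsWalk u l x) (v : N.V) :
    N.excess (cnt l) v = (if u = v then 1 else 0) - if x = v then 1 else 0 := by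
  induction l generalizing u with
  | nil =>
    rw [cnt_nil, excess_zero, show u = x from h]; simp
  | cons a l ih =>
    rw [cnt_cons, excess_add, ih h.2, excess_single, h.1]
    ring

theorem IsWalk.mem_flow {l : List N.A} (h : N.IsWalk N.s l N.t) {k : ℝ} (hk : 0 < k) :
    k • cnt l ∈ N.flowPolyhedron k := by
  classical
  refine ⟨fun a => mul_nonneg hk.le (cnt_nonneg l a), ?_, ?_⟩
  · intro v h1 h2
    rw [excess_smul, h.excess, if_neg (fun e => h1 e.symm), if_neg (fun e => h2 e.symm)]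
    simp
  · rw [excess_smul, h.excess, if_pos rfl, if_neg (fun e => N.s_ne_t e.symm)]
    simp

/-- a flow of positive value has a walk from the source to the sink in its support -/
theorem exists_walk {k : ℝ} (hk : 0 < k) {φ : N.A → ℝ} (hφ : φ ∈ N.flowPolyhedron k) :
    ∃ l : List N.A, N.IsWalk N.s l N.t ∧ ∀ a ∈ l, 0 < φ a := by
  classical
  by_contra hcon
  push Not at hcon
  let S : Finset N.V := Finset.univ.filter fun v =>
    ∃ l : List N.A, N.IsWalk N.s l v ∧ ∀ a ∈ l, 0 < φ a
  have hs : N.s ∈ S := by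
    simp only [S, Finset.mem_filter, Finset.mem_univ, true_and]
    exact ⟨[], rfl, by simp⟩
  have ht : N.t ∉ S := by
    simp only [S, Finset.mem_filter, Finset.mem_univ, true_and]
    rintro ⟨l, h1, h2⟩
    obtain ⟨a, ha, h3⟩ := hcon l h1
    exact absurd (h2 a ha) (not_lt.2 h3)
  have hclosed : ∀ a, N.tail a ∈ S → N.head a ∉ S → φ a = 0 := by
    intro a h1 h2
    by_contra h3
    apply h2
    simp only [S, Finset.mem_filter, Finset.mem_univ, true_and] at h1 ⊢
    obtain ⟨l, h4, h5⟩ := h1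
    refine ⟨l ++ [a], h4.append ⟨rfl, rfl⟩, ?_⟩
    intro b hb
    rw [List.mem_append, List.mem_singleton] at hb
    rcases hb with hb | rfl
    · exact h5 b hb
    · exact lt_of_le_of_ne (hφ.1 b) (Ne.symm h3)
  have hsum : ∑ v ∈ S, N.excess φ v = k := by
    rw [Finset.sum_eq_single_of_mem N.s hs]
    · exact hφ.2.2
    · intro v hv hvs
      exact hφ.2.1 v hvs fun e => ht (e ▸ hv)
  have hsum2 : ∑ v ∈ S, N.excess φ v =
      ∑ a, ((if N.tail a ∈ S then φ a else 0) - if N.head a ∈ S then φ a else 0) := by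
    simp only [Network.excess]
    rw [Finset.sum_sub_distrib, Finset.sum_comm, Finset.sum_comm (s := S), ← Finset.sum_sub_distrib]
    apply Finset.sum_congr rfl
    intro a _
    congr 1
    · rw [Finset.sum_ite_eq]
    · rw [Finset.sum_ite_eq]
  have : k ≤ 0 := by
    rw [← hsum, hsum2]
    apply Finset.sum_nonpos
    intro a _
    by_cases h1 : N.tail a ∈ S
    · by_cases h2 : N.head a ∈ S
      · simp [h1, h2]
      · simp [h1, h2, hclosed a h1 h2]
    · by_cases h2 : N.head a ∈ S
      · simp [h1, h2, hφ.1 a]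
      · simp [h1, h2]
  linarith

end Network

/-- A 0/1 vector in a subset of the cube is extreme. -/
theorem extreme_zero_one {ι : Type} {P : Set (ι → ℝ)} (hP : ∀ z ∈ P, ∀ i, 0 ≤ z i ∧ z i ≤ 1)
    {x y z : ι → ℝ} (hx : x ∈ P) (hy : y ∈ P) (hz : ∀ i, z i = 0 ∨ z i = 1) {ε : ℝ} (h0 : 0 < ε)
    (h1 : ε < 1) (h : z = (1 - ε) • x + ε • y) : y = z := by
  funext i
  have hi : z i = (1 - ε) * x i + ε * y i := by rw [h]; simp
  obtain ⟨hx0, hx1⟩ := hP x hx i
  obtain ⟨hy0, hy1⟩ := hP y hy i
  rcases hz i with h2 | h2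
  · rw [h2] at hi ⊢
    have : 0 ≤ (1 - ε) * x i := mul_nonneg (by linarith) hx0
    have : ε * y i = 0 := le_antisymm (by linarith) (mul_nonneg h0.le hy0)
    rcases mul_eq_zero.1 this with h3 | h3
    · linarith
    · exact h3
  · rw [h2] at hi ⊢
    have : (1 - ε) * x i ≤ (1 - ε) * 1 := mul_le_mul_of_nonneg_left hx1 (by linarith)
    have : ε * 1 ≤ ε * y i := by linarith
    have := le_of_mul_le_mul_left this h0
    linarith

namespace Network

variable {N : Network}

theorem exists_walk_vertex {ι : Type} {P : Set (ι → ℝ)}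
    (hP : ∀ z ∈ P, ∀ i, 0 ≤ z i ∧ z i ≤ 1) {k : ℝ} (hk : 0 < k)
    (π : (N.A → ℝ) →ₗ[ℝ] (ι → ℝ)) (hπ : π '' N.flowPolyhedron k = P) {z : ι → ℝ} (hzP : z ∈ P)
    (hz : ∀ i, z i = 0 ∨ z i = 1) :
    ∃ l : List N.A, N.IsWalk N.s l N.t ∧ π (k • cnt l) = z := by
  rw [← hπ] at hzP
  obtain ⟨φ, hφ, rfl⟩ := hzP
  obtain ⟨l, hl, hpos⟩ := exists_walk hk hφ
  refine ⟨l, hl, ?_⟩
  -- choose a small ε
  have hε : ∃ ε : ℝ, 0 < ε ∧ ε < 1 ∧ ∀ a, ε * (k * cnt l a) ≤ φ a := by
    classical
    have h1 : ∀ a : N.A, ∃ ε : ℝ, 0 < ε ∧ ∀ ε', 0 < ε' → ε' ≤ ε → ε' * (k * cnt l a) ≤ φ a := by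
      intro a
      by_cases ha : a ∈ l
      · have h2 := hpos a ha
        have h3 : 0 < k * cnt l a := by
          apply mul_pos hk
          show (0 : ℝ) < ((l.count a : ℕ) : ℝ)
          exact_mod_cast List.count_pos_iff.2 ha
        refine ⟨φ a / (k * cnt l a), div_pos h2 h3, fun ε' _ h5 => ?_⟩
        rwa [le_div_iff₀ h3] at h5
      · refine ⟨1, one_pos, fun ε' _ _ => ?_⟩
        have : cnt l a = 0 := by
          show ((l.count a : ℕ) : ℝ) = 0
          rw [List.count_eq_zero_of_not_mem ha, Nat.cast_zero]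
        rw [this, mul_zero, mul_zero]
        exact hφ.1 a
    choose f hf hf' using h1
    obtain ⟨ε, hε0, hε1⟩ : ∃ ε : ℝ, 0 < ε ∧ ∀ a, ε ≤ f a := by
      by_cases hne : (Finset.univ : Finset N.A).Nonempty
      · obtain ⟨a0, _, ha0⟩ := Finset.exists_min_image Finset.univ f hne
        exact ⟨f a0, hf a0, fun a => ha0 a (Finset.mem_univ a)⟩
      · exact ⟨1, one_pos, fun a => absurd ⟨a, Finset.mem_univ a⟩ hne⟩
    refine ⟨min ε (1 / 2), lt_min hε0 (by norm_num), ?_, fun a => ?_⟩
    · exact lt_of_le_of_lt (min_le_right _ _) (by norm_num)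
    · exact hf' a _ (lt_min hε0 (by norm_num)) ((min_le_left _ _).trans (hε1 a))
  obtain ⟨ε, h0, h1, h2⟩ := hε
  have hmem := hl.mem_flow hk
  let ψ : N.A → ℝ := (1 - ε)⁻¹ • (φ + (-ε) • (k • cnt l))
  have h1' : (1 - ε) ≠ 0 := by linarith
  have hψ : ψ ∈ N.flowPolyhedron k := by
    refine ⟨fun a => ?_, fun v hv hv' => ?_, ?_⟩
    · show 0 ≤ (1 - ε)⁻¹ * (φ a + (-ε) * (k * cnt l a))
      apply mul_nonneg (inv_nonneg.2 (by linarith))
      have := h2 a
      linarith
    · rw [excess_smul, excess_add, excess_smul, hφ.2.1 v hv hv', hmem.2.1 v hv hv']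
      simp
    · rw [excess_smul, excess_add, excess_smul, hφ.2.2, hmem.2.2]
      field_simp
      ring
  refine extreme_zero_one hP (x := π ψ) ?_ ?_ hz h0 h1 ?_
  · rw [← hπ]; exact ⟨ψ, hψ, rfl⟩
  · rw [← hπ]; exact ⟨_, hmem, rfl⟩
  · rw [← map_smul, ← map_smul, ← map_add]
    congr 1
    show φ = (1 - ε) • ((1 - ε)⁻¹ • (φ + (-ε) • (k • cnt l))) + ε • (k • cnt l)
    rw [smul_smul, mul_inv_cancel₀ h1', one_smul, neg_smul]
    abel

end Network

end Pool.Agent.LibSemiorder
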