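import Mathlib
import Pool.Agent.LibSemiorder.Flow

set_option autoImplicit false

/-!
The abstract path argument: classes of walks through a vertex have a mixing vector, which cannot
move from `0` to `1` if all classes are large.
-/

namespace Pool.Agent.LibSemiorder

/-- `i` is not constant on `C` -/
def Free {S ι : Type} (χ : S → ι → ℝ) (C : Finset S) (i : ι) : Prop :=
  ∃ σ ∈ C, ∃ τ ∈ C, χ σ i ≠ χ τ i

/-- the mixing property -/
def Crossing {S ι : Type} (χ : S → ι → ℝ) (P : Set (ι → ℝ)) (C : Finset S) (lam : ι → ℝ) : Prop :=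
  ∀ σ ∈ C, ∀ τ ∈ C, (fun i => χ σ i + lam i * (χ τ i - χ σ i)) ∈ P

theorem Free.mono {S ι : Type} {χ : S → ι → ℝ} {C C' : Finset S} (h : C ⊆ C') {i : ι}
    (hi : Free χ C i) : Free χ C' i := by
  obtain ⟨σ, hσ, τ, hτ, hne⟩ := hi
  exact ⟨σ, h hσ, τ, h hτ, hne⟩

theorem Crossing.mono {S ι : Type} {χ : S → ι → ℝ} {P : Set (ι → ℝ)} {C C' : Finset S}
    (h : C ⊆ C') {lam : ι → ℝ} (hc : Crossing χ P C' lam) : Crossing χ P C lam :=
  fun σ hσ τ hτ => hc σ (h hσ) τ (h hτ)

namespace Network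

variable {N : Network} {S ι L : Type} [Fintype S]

section

variable (k : ℝ) (π : (N.A → ℝ) →ₗ[ℝ] (ι → ℝ)) (W : S → List N.A)

/-- the value of a list of arcs -/
noncomputable def val (l : List N.A) : ι → ℝ := π (k • cnt l)

/-- `x` is the value of a prefix of `W σ` that ends in `v` -/
def At (v : N.V) (σ : S) (x : ι → ℝ) : Prop :=
  ∃ A B, W σ = A ++ B ∧ N.IsWalk N.s A v ∧ N.IsWalk v B N.t ∧ x = val k π A

end

variable {k : ℝ} {π : (N.A → ℝ) →ₗ[ℝ] (ι → ℝ)} {W : S → List N.A} {χ : S → ι → ℝ}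
  {P : Set (ι → ℝ)}

theorem val_append (l m : List N.A) : val k π (l ++ m) = val k π l + val k π m := by
  rw [val, cnt_append, smul_add, map_add]; rfl

theorem val_nil : val k π ([] : List N.A) = 0 := by
  rw [val, cnt_nil, smul_zero, map_zero]

variable (hk : 0 < k) (hπ : π '' N.flowPolyhedron k = P)
  (hP : ∀ z ∈ P, ∀ i, 0 ≤ z i ∧ z i ≤ 1)
  (hW : ∀ σ, N.IsWalk N.s (W σ) N.t) (hχ : ∀ σ, val k π (W σ) = χ σ)
  (h01 : ∀ σ i, χ σ i = 0 ∨ χ σ i = 1)

omit [Fintype S] in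
include hk hπ hχ in
theorem At.cross {v : N.V} {σ τ : S} {x y : ι → ℝ} (h : At k π W v σ x) (h' : At k π W v τ y) :
    x + χ τ - y ∈ P := by
  obtain ⟨A, B, h1, h2, h3, rfl⟩ := h
  obtain ⟨A', B', h1', h2', h3', rfl⟩ := h'
  have h4 : χ τ = val k π A' + val k π B' := by rw [← hχ, h1', val_append]
  have h5 : val k π A + χ τ - val k π A' = val k π (A ++ B') := by
    rw [h4, val_append]; abel
  rw [h5, ← hπ]
  exact ⟨_, (h2.append h3').mem_flow hk, rfl⟩

include hk hπ hχ hP h01 in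
theorem exists_lam (v : N.V) : ∃ lam : ι → ℝ, ∀ σ τ x y, At k π W v σ x → At k π W v τ y →
    ∀ i, y i - x i = lam i * (χ τ i - χ σ i) := by
  classical
  have key : ∀ i σ τ x y, At k π W v σ x → At k π W v τ y → χ σ i = χ τ i → x i = y i := by
    intro i σ τ x y hx hy he
    have h1 := hP _ (hx.cross hk hπ hχ hy) i
    have h2 := hP _ (hy.cross hk hπ hχ hx) i
    simp only [Pi.sub_apply, Pi.add_apply] at h1 h2
    rcases h01 τ i with h3 | h3
    · rw [he, h3] at h2; rw [h3] at h1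
      linarith [h1.1, h2.1]
    · rw [he, h3] at h2; rw [h3] at h1
      linarith [h1.2, h2.2]
  have hi : ∀ i, ∃ c : ℝ, ∀ σ τ x y, At k π W v σ x → At k π W v τ y →
      y i - x i = c * (χ τ i - χ σ i) := by
    intro i
    by_cases hex : ∃ σ τ x y, At k π W v σ x ∧ At k π W v τ y ∧ χ σ i = 0 ∧ χ τ i = 1
    · obtain ⟨σ₀, τ₀, x₀, y₀, hx₀, hy₀, hs, ht⟩ := hex
      refine ⟨y₀ i - x₀ i, fun σ τ x y hx hy => ?_⟩
      rcases h01 σ i with h1 | h1
      · rcases h01 τ i with h2 | h2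
        · rw [key i σ τ x y hx hy (by rw [h1, h2]), h1, h2]; ring
        · rw [key i σ σ₀ x x₀ hx hx₀ (by rw [h1, hs]), key i τ τ₀ y y₀ hy hy₀ (by rw [h2, ht]),
            h1, h2]; ring
      · rcases h01 τ i with h2 | h2
        · rw [key i σ τ₀ x y₀ hx hy₀ (by rw [h1, ht]), key i τ σ₀ y x₀ hy hx₀ (by rw [h2, hs]),
            h1, h2]; ring
        · rw [key i σ τ x y hx hy (by rw [h1, h2]), h1, h2]; ring
    · refine ⟨0, fun σ τ x y hx hy => ?_⟩
      push Not at hex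
      have : χ σ i = χ τ i := by
        rcases h01 σ i with h1 | h1
        · rcases h01 τ i with h2 | h2
          · rw [h1, h2]
          · exact absurd h2 (hex σ τ x y hx hy h1)
        · rcases h01 τ i with h2 | h2
          · exact absurd h1 (hex τ σ y x hy hx h2)
          · rw [h1, h2]
      rw [key i σ τ x y hx hy this]; ring
  choose lam hlam using hi
  exact ⟨lam, fun σ τ x y hx hy i => hlam i σ τ x y hx hy⟩

include hk hπ hχ hP h01 hW in
/-- The path argument. -/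
theorem card_le_arcs [Fintype L] (St : L → Set ι) (T : ℕ)
    (H1 : ∀ (C : Finset S) (lam : ι → ℝ), Crossing χ P C lam →
      ∀ y, ∀ i ∈ St y, ∀ j ∈ St y, Free χ C i → Free χ C j → lam i = lam j)
    (H2 : ∀ (C : Finset S) (lam : ι → ℝ), T < C.card → Crossing χ P C lam →
      ∃ μ : ℝ, ∃ Y : Finset L, Fintype.card L < 2 * Y.card ∧
        ∀ y ∈ Y, ∃ i ∈ St y, Free χ C i ∧ lam i = μ) :
    Fintype.card S ≤ Fintype.card N.A * T := by
  classical
  by_contra hlt
  push Not at hlt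
  -- classes
  let Ca : N.A → Finset S := fun a => Finset.univ.filter fun σ => a ∈ W σ
  let Cv : N.V → Finset S := fun v => Finset.univ.filter fun σ => ∃ x, At k π W v σ x
  obtain ⟨σ, hσ⟩ : ∃ σ, ∀ a ∈ W σ, T < (Ca a).card := by
    by_contra hcon
    push Not at hcon
    have h1 : (Finset.univ : Finset S) ⊆
        (Finset.univ.filter fun a : N.A => (Ca a).card ≤ T).biUnion Ca := by
      intro σ _
      obtain ⟨a, ha, hT⟩ := hcon σ
      rw [Finset.mem_biUnion]
      refine ⟨a, by simp [hT], by simp [Ca, ha]⟩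
    have h2 := (Finset.card_le_card h1).trans Finset.card_biUnion_le
    have h3 : ∑ a ∈ Finset.univ.filter (fun a : N.A => (Ca a).card ≤ T), (Ca a).card ≤
        ∑ a ∈ Finset.univ.filter (fun a : N.A => (Ca a).card ≤ T), T :=
      Finset.sum_le_sum fun a ha => (Finset.mem_filter.1 ha).2
    rw [Finset.sum_const, smul_eq_mul] at h3
    have h4 : (Finset.univ.filter (fun a : N.A => (Ca a).card ≤ T)).card ≤ Fintype.card N.A :=
      Finset.card_le_univ _
    have h5 := h2.trans (h3.trans (Nat.mul_le_mul_right T h4))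
    rw [Finset.card_univ] at h5
    exact absurd h5 (not_le.2 hlt)
  choose lam hlam using fun v : N.V => exists_lam (W := W) (χ := χ) hk hπ hP hχ h01 v
  have hcross : ∀ v, Crossing χ P (Cv v) (lam v) := by
    intro v σ₁ h1 σ₂ h2
    obtain ⟨x, hx⟩ := (Finset.mem_filter.1 h1).2
    obtain ⟨y, hy⟩ := (Finset.mem_filter.1 h2).2
    have h3 := hy.cross hk hπ hχ hx
    have h4 : (fun i => χ σ₁ i + lam v i * (χ σ₂ i - χ σ₁ i)) = y + χ σ₁ - x := by
      funext i
      rw [← hlam v σ₁ σ₂ x y hx hy i]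
      simp only [Pi.sub_apply, Pi.add_apply]; ring
    rw [h4]; exact h3
  -- arcs
  have harc : ∀ a τ, τ ∈ Ca a → ∃ x, At k π W (N.tail a) τ x ∧
      At k π W (N.head a) τ (x + val k π [a]) := by
    intro a τ hτ
    have ha : a ∈ W τ := (Finset.mem_filter.1 hτ).2
    obtain ⟨A, B, hAB⟩ := List.append_of_mem ha
    have hw := hW τ
    rw [hAB] at hw
    obtain ⟨v, h1, h2⟩ := hw.split
    have h3 : N.tail a = v := h2.1
    have h4 : N.IsWalk (N.head a) B N.t := h2.2
    subst h3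
    refine ⟨val k π A, ⟨A, a :: B, hAB, h1, h2, rfl⟩, ⟨A ++ [a], B, by rw [hAB]; simp,
      h1.append ⟨rfl, rfl⟩, h4, by rw [val_append]⟩⟩
  have hsub : ∀ a, Ca a ⊆ Cv (N.tail a) ∧ Ca a ⊆ Cv (N.head a) := by
    intro a
    constructor
    · intro τ hτ
      obtain ⟨x, h1, _⟩ := harc a τ hτ
      exact Finset.mem_filter.2 ⟨Finset.mem_univ _, x, h1⟩
    · intro τ hτ
      obtain ⟨x, _, h1⟩ := harc a τ hτ
      exact Finset.mem_filter.2 ⟨Finset.mem_univ _, _, h1⟩
  have hsame : ∀ a i, Free χ (Ca a) i → lam (N.tail a) i = lam (N.head a) i := by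
    rintro a i ⟨σ₁, h1, σ₂, h2, hne⟩
    obtain ⟨x, hx, hx'⟩ := harc a σ₁ h1
    obtain ⟨y, hy, hy'⟩ := harc a σ₂ h2
    have e1 := hlam _ _ _ _ _ hx hy i
    have e2 := hlam _ _ _ _ _ hx' hy' i
    simp only [Pi.add_apply] at e2
    have e3 : lam (N.tail a) i * (χ σ₂ i - χ σ₁ i) = lam (N.head a) i * (χ σ₂ i - χ σ₁ i) := by
      rw [← e1, ← e2]; ring
    exact mul_right_cancel₀ (sub_ne_zero.2 (Ne.symm hne)) e3
  -- the claim along the walk
  let Claim : N.V → Prop := fun v => ∃ Y : Finset L, Fintype.card L < 2 * Y.card ∧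
    ∀ y ∈ Y, ∃ i ∈ St y, Free χ (Cv v) i ∧ lam v i = 0
  have hstep : ∀ a, T < (Ca a).card → Claim (N.tail a) → Claim (N.head a) := by
    rintro a hT ⟨Y, hY, hYf⟩
    obtain ⟨μ, Y', hY', hYf'⟩ := H2 (Ca a) (lam (N.tail a)) hT ((hcross _).mono (hsub a).1)
    have hinter : (Y ∩ Y').Nonempty := by
      rw [← Finset.card_pos]
      have h1 := Finset.card_union_add_card_inter Y Y'
      have h2 := Finset.card_le_univ (Y ∪ Y')
      omega
    obtain ⟨y, hy⟩ := hinter
    rw [Finset.mem_inter] at hy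
    obtain ⟨i, hi, hfi, h0⟩ := hYf y hy.1
    obtain ⟨j, hj, hfj, hμ⟩ := hYf' y hy.2
    have h3 := H1 _ _ (hcross _) y i hi j hj hfi (hfj.mono (hsub a).1)
    have hμ0 : μ = 0 := by rw [← hμ, ← h3, h0]
    refine ⟨Y', hY', fun y hy => ?_⟩
    obtain ⟨i, hi, hfi, h4⟩ := hYf' y hy
    exact ⟨i, hi, hfi.mono (hsub a).2, by rw [← hsame a i hfi, h4, hμ0]⟩
  have hwalk : ∀ (l : List N.A) (u v : N.V), N.IsWalk u l v → (∀ a ∈ l, T < (Ca a).card) →
      Claim u → Claim v := by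
    intro l
    induction l with
    | nil => intro u v h _ hu; rw [← show u = v from h]; exact hu
    | cons a l ih =>
      intro u v h hT hu
      refine ih _ _ h.2 (fun b hb => hT b (List.mem_cons_of_mem _ hb)) ?_
      apply hstep a (hT a List.mem_cons_self)
      rw [h.1]; exact hu
  have hs : ∀ τ, At k π W N.s τ 0 := fun τ => ⟨[], W τ, rfl, rfl, hW τ, by rw [val_nil]⟩
  have ht : ∀ τ, At k π W N.t τ (χ τ) := fun τ =>
    ⟨W τ, [], by simp, hW τ, rfl, by rw [hχ]⟩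
  have hTS : T < (Cv N.s).card := by
    have h1 : Cv N.s = Finset.univ := by
      ext τ; simp only [Cv, Finset.mem_filter, Finset.mem_univ, true_and, iff_true]
      exact ⟨0, hs τ⟩
    rw [h1, Finset.card_univ]
    refine lt_of_le_of_lt ?_ hlt
    have : 0 < Fintype.card N.A := by
      rw [Fintype.card_pos_iff]
      by_contra hne
      rw [not_nonempty_iff] at hne
      have h2 := hW σ
      have h3 : W σ = [] := by
        rcases W σ with _ | ⟨a, l⟩
        · rfl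
        · exact hne.elim a
      rw [h3] at h2
      exact N.s_ne_t h2
    exact Nat.le_mul_of_pos_left T this
  have hstart : Claim N.s := by
    obtain ⟨μ, Y, hY, hYf⟩ := H2 _ _ hTS (hcross N.s)
    refine ⟨Y, hY, fun y hy => ?_⟩
    obtain ⟨i, hi, hfi, _⟩ := hYf y hy
    refine ⟨i, hi, hfi, ?_⟩
    obtain ⟨σ₁, _, σ₂, _, hne⟩ := hfi
    have e1 := hlam _ _ _ _ _ (hs σ₁) (hs σ₂) i
    simp only [Pi.zero_apply, sub_self] at e1
    rcases mul_eq_zero.1 e1.symm with h | h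
    · exact h
    · exact absurd (sub_eq_zero.1 h).symm hne
  obtain ⟨Y, hY, hYf⟩ := hwalk _ _ _ (hW σ) hσ hstart
  have hne : Y.Nonempty := by
    rw [← Finset.card_pos]; omega
  obtain ⟨y, hy⟩ := hne
  obtain ⟨i, _, ⟨σ₁, _, σ₂, _, hne⟩, h0⟩ := hYf y hy
  have e1 := hlam _ _ _ _ _ (ht σ₁) (ht σ₂) i
  rw [h0, zero_mul] at e1
  exact hne (sub_eq_zero.1 e1).symm

end Network

end Pool.Agent.LibSemiorder
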