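import Mathlib
import Pool.Agent.LibSemiorder.Path

set_option autoImplicit false

/-!
Valid inequalities of the semiorder polytope and the family of semiorders of permutations.
-/

namespace Pool.Agent.LibSemiorder

open Classical in
/-- the entries of a vector, with zero diagonal -/
noncomputable def entry {n : ℕ} (z : OffDiag n → ℝ) (a b : Fin n) : ℝ :=
  if h : a ≠ b then z ⟨(a, b), h⟩ else 0

theorem entry_add {n : ℕ} (z w : OffDiag n → ℝ) (a b : Fin n) :
    entry (z + w) a b = entry z a b + entry w a b := by
  unfold entry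
  split_ifs <;> simp

theorem entry_smul {n : ℕ} (c : ℝ) (z : OffDiag n → ℝ) (a b : Fin n) :
    entry (c • z) a b = c * entry z a b := by
  unfold entry
  split_ifs <;> simp

open Classical in
theorem entry_incidence {n : ℕ} {R : Fin n → Fin n → Prop} (hR : ∀ a, ¬ R a a) (a b : Fin n) :
    entry (incidence R) a b = if R a b then 1 else 0 := by
  unfold entry incidence
  by_cases h : a = b
  · subst h; simp [hR]
  · simp [h]

/-- The exchange inequalities hold on the polytope. -/
theorem ineq_exch {n : ℕ} {z : OffDiag n → ℝ} (hz : z ∈ semiorderPolytope n) (a b c d : Fin n) :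
    entry z a b + entry z c d ≤ 1 + entry z a d + entry z c b := by
  classical
  have hsub : semiorderPolytope n ⊆
      {z | entry z a b + entry z c d - entry z a d - entry z c b ≤ 1} := by
    apply convexHull_min
    · rintro _ ⟨R, hR, rfl⟩
      simp only [Set.mem_ofPred_eq]
      rw [entry_incidence hR.irrefl, entry_incidence hR.irrefl, entry_incidence hR.irrefl,
        entry_incidence hR.irrefl]
      have := hR.exch a b c d
      by_cases h1 : R a b <;> by_cases h2 : R c d <;> by_cases h3 : R a d <;>
        by_cases h4 : R c b <;> simp_all <;> norm_num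
    · refine convex_halfSpace_le (f := fun z : OffDiag n → ℝ =>
        entry z a b + entry z c d - entry z a d - entry z c b) ⟨?_, ?_⟩ 1
      · intro x y
        rw [entry_add, entry_add, entry_add, entry_add]; ring
      · intro r x
        rw [entry_smul, entry_smul, entry_smul, entry_smul, smul_eq_mul]; ring
  have := hsub hz
  simp only [Set.mem_ofPred_eq] at this
  linarith

/-- The semiorder inequalities hold on the polytope. -/
theorem ineq_semi {n : ℕ} {z : OffDiag n → ℝ} (hz : z ∈ semiorderPolytope n) (a b c d : Fin n) :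
    entry z a b + entry z b c ≤ 1 + entry z a d + entry z d c := by
  classical
  have hsub : semiorderPolytope n ⊆
      {z | entry z a b + entry z b c - entry z a d - entry z d c ≤ 1} := by
    apply convexHull_min
    · rintro _ ⟨R, hR, rfl⟩
      simp only [Set.mem_ofPred_eq]
      rw [entry_incidence hR.irrefl, entry_incidence hR.irrefl, entry_incidence hR.irrefl,
        entry_incidence hR.irrefl]
      have := hR.semi a b c d
      by_cases h1 : R a b <;> by_cases h2 : R b c <;> by_cases h3 : R a d <;>
        by_cases h4 : R d c <;> simp_all <;> norm_num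
    · refine convex_halfSpace_le (f := fun z : OffDiag n → ℝ =>
        entry z a b + entry z b c - entry z a d - entry z d c) ⟨?_, ?_⟩ 1
      · intro x y
        rw [entry_add, entry_add, entry_add, entry_add]; ring
      · intro r x
        rw [entry_smul, entry_smul, entry_smul, entry_smul, smul_eq_mul]; ring
  have := hsub hz
  simp only [Set.mem_ofPred_eq] at this
  linarith

theorem cube {n : ℕ} {z : OffDiag n → ℝ} (hz : z ∈ semiorderPolytope n) (i : OffDiag n) :
    0 ≤ z i ∧ z i ≤ 1 := by
  classical
  have hsub : semiorderPolytope n ⊆ Set.Icc (0 : OffDiag n → ℝ) 1 := by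
    apply convexHull_min
    · rintro _ ⟨R, hR, rfl⟩
      constructor
      · intro i
        show (0 : ℝ) ≤ if _ then _ else _
        split_ifs <;> norm_num
      · intro i
        show (if _ then _ else _ : ℝ) ≤ 1
        split_ifs <;> norm_num
    · exact convex_Icc _ _
  exact ⟨(hsub hz).1 i, (hsub hz).2 i⟩

/-- A unit interval representation gives a semiorder. -/
theorem isSemiorder_of_rep {α : Type} (f : α → ℤ) {W : ℤ} (hW : 0 ≤ W) :
    IsSemiorder fun a b => f b + W < f a := by
  constructor
  · intro a h; omega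
  · intro a b c d h1 h2; omega
  · intro a b c d h1 h2; omega

/-! ### The family -/

section family

/-- the largest index of a ruler -/
def J (n w : ℕ) : ℕ := 3 * n + 6 * w

/-- positions on the line -/
def pos {n N : ℕ} (w : ℕ) (σ : Equiv.Perm (Fin n)) (x : Fin N) : ℤ :=
  if x.val ≤ J n w then 2 * (x.val : ℤ)
  else if h : x.val - (J n w + 1) < n then
    6 * (((σ ⟨x.val - (J n w + 1), h⟩).val : ℤ) + w) + 1
  else 0

/-- the semiorder of a permutation -/
def rel {n N : ℕ} (w : ℕ) (σ : Equiv.Perm (Fin n)) (a b : Fin N) : Prop :=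
  pos w σ b + (6 * w - 2) < pos w σ a

theorem rel_semiorder {n N w : ℕ} (hw : 1 ≤ w) (σ : Equiv.Perm (Fin n)) :
    IsSemiorder (rel (N := N) w σ) :=
  isSemiorder_of_rep (pos w σ) (by omega)

variable {n N w : ℕ} (hN : J n w + 1 + n ≤ N)

/-- the ruler number `j` -/
def rul (j : ℕ) (hj : j ≤ J n w) : Fin N := ⟨j, by omega⟩

/-- the label number `y` -/
def lab (y : Fin n) : Fin N := ⟨J n w + 1 + y.val, by omega⟩

theorem pos_rul (σ : Equiv.Perm (Fin n)) {j : ℕ} (hj : j ≤ J n w) :
    pos w σ (rul hN j hj) = 2 * j := by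
  simp [pos, rul, hj]

theorem pos_lab (σ : Equiv.Perm (Fin n)) (y : Fin n) :
    pos w σ (lab hN y) = 6 * (((σ y).val : ℤ) + w) + 1 := by
  have h1 : ¬ (J n w + 1 + y.val ≤ J n w) := by omega
  have h2 : J n w + 1 + y.val - (J n w + 1) < n := by omega
  have h3 : (⟨J n w + 1 + y.val - (J n w + 1), h2⟩ : Fin n) = y := by
    apply Fin.ext; show J n w + 1 + y.val - (J n w + 1) = y.val; omega
  simp only [pos, lab, h1, if_false, h2, dif_pos, h3]

theorem rel_rul_rul (σ : Equiv.Perm (Fin n)) {i j : ℕ} (hi : i ≤ J n w) (hj : j ≤ J n w) :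
    rel w σ (rul hN i hi) (rul hN j hj) ↔ j + 3 * w ≤ i := by
  rw [rel, pos_rul, pos_rul]; omega

theorem rel_lab_rul (σ : Equiv.Perm (Fin n)) (y : Fin n) {j : ℕ} (hj : j ≤ J n w) :
    rel w σ (lab hN y) (rul hN j hj) ↔ j ≤ 3 * (σ y).val + 1 := by
  rw [rel, pos_rul, pos_lab]; omega

theorem rel_rul_lab (σ : Equiv.Perm (Fin n)) (y : Fin n) {i : ℕ} (hi : i ≤ J n w) :
    rel w σ (rul hN i hi) (lab hN y) ↔ 6 * w + 3 * (σ y).val ≤ i := by
  rw [rel, pos_rul, pos_lab]; omega

theorem rel_lab_lab (σ : Equiv.Perm (Fin n)) (y' y : Fin n) :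
    rel w σ (lab hN y') (lab hN y) ↔ (σ y).val + w ≤ (σ y').val := by
  rw [rel, pos_lab, pos_lab]; omega

end family

end Pool.Agent.LibSemiorder
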