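import Mathlib
import Pool.Agent.LibSemiorder.Family

set_option autoImplicit false

/-!
The mixing vector of a crossing class: all free coordinates between a label and the rulers have
the same value, and labels that cover each other have the same value.
-/

namespace Pool.Agent.LibSemiorder

variable {n N w : ℕ}

/-- the incidence vectors of the family -/
noncomputable def chi (n N w : ℕ) (σ : Equiv.Perm (Fin n)) : OffDiag N → ℝ :=
  incidence (rel (N := N) w σ)

open Classical in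
/-- mixture of truth values -/
noncomputable def mx (p q : Prop) (l : ℝ) : ℝ :=
  (if p then 1 else 0) + l * ((if q then 1 else 0) - if p then 1 else 0)

theorem mx_tt {p q : Prop} (hp : p) (hq : q) (l : ℝ) : mx p q l = 1 := by simp [mx, hp, hq]
theorem mx_ff {p q : Prop} (hp : ¬ p) (hq : ¬ q) (l : ℝ) : mx p q l = 0 := by simp [mx, hp, hq]
theorem mx_tf {p q : Prop} (hp : p) (hq : ¬ q) (l : ℝ) : mx p q l = 1 - l := by
  simp [mx, hp, hq]; ring
theorem mx_ft {p q : Prop} (hp : ¬ p) (hq : q) (l : ℝ) : mx p q l = l := by simp [mx, hp, hq]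

/-- the exchange inequality and the semiorder inequality for mixtures -/
theorem mix_ineq (hw : 1 ≤ w) {C : Finset (Equiv.Perm (Fin n))} {lam : OffDiag N → ℝ}
    (hC : Crossing (chi n N w) (semiorderPolytope N) C lam) {σ τ : Equiv.Perm (Fin n)}
    (hσ : σ ∈ C) (hτ : τ ∈ C) :
    (∀ a b c d : Fin N, mx (rel w σ a b) (rel w τ a b) (entry lam a b) +
        mx (rel w σ c d) (rel w τ c d) (entry lam c d) ≤
      1 + mx (rel w σ a d) (rel w τ a d) (entry lam a d) +
        mx (rel w σ c b) (rel w τ c b) (entry lam c b)) ∧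
    (∀ a b c d : Fin N, mx (rel w σ a b) (rel w τ a b) (entry lam a b) +
        mx (rel w σ b c) (rel w τ b c) (entry lam b c) ≤
      1 + mx (rel w σ a d) (rel w τ a d) (entry lam a d) +
        mx (rel w σ d c) (rel w τ d c) (entry lam d c)) := by
  classical
  have hz := hC σ hσ τ hτ
  have he : ∀ a b : Fin N, entry (fun i => chi n N w σ i + lam i * (chi n N w τ i - chi n N w σ i))
      a b = mx (rel w σ a b) (rel w τ a b) (entry lam a b) := by
    intro a b
    by_cases h : a = b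
    · subst h
      rw [mx_ff ((rel_semiorder hw σ).irrefl a) ((rel_semiorder hw τ).irrefl a)]
      simp [entry]
    · simp only [entry, ne_eq, h, not_false_eq_true, dif_pos, chi, incidence, mx]
  constructor
  · intro a b c d
    have := ineq_exch hz a b c d
    rw [he, he, he, he] at this
    exact this
  · intro a b c d
    have := ineq_semi hz a b c d
    rw [he, he, he, he] at this
    exact this

section

variable (hN : J n w + 1 + n ≤ N) (hw : 1 ≤ w) {C : Finset (Equiv.Perm (Fin n))}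
  {lam : OffDiag N → ℝ} (hC : Crossing (chi n N w) (semiorderPolytope N) C lam)

/-- the mixing value of the coordinate (label, ruler) -/
noncomputable def lr (lam : OffDiag N → ℝ) (y : Fin n) (j : ℕ) (hj : j ≤ J n w) : ℝ :=
  entry lam (lab hN y) (rul hN j hj)

include hw hC in
theorem lr_mono {y : Fin n} {j j' : ℕ} (hj : j ≤ J n w) (hj' : j' ≤ J n w) (hjj : j < j')
    {σ τ : Equiv.Perm (Fin n)} (hσ : σ ∈ C) (hτ : τ ∈ C) (h1 : 3 * (σ y).val + 1 < j)
    (h2 : j' ≤ 3 * (τ y).val + 1) : lr hN lam y j hj = lr hN lam y j' hj' := by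
  have hi : j + 3 * w ≤ J n w := by
    have := (τ y).isLt
    unfold J; omega
  have e1 := (mix_ineq hw hC hσ hτ).1 (lab hN y) (rul hN j' hj') (rul hN (j + 3 * w) hi)
    (rul hN j hj)
  have e2 := (mix_ineq hw hC hτ hσ).1 (lab hN y) (rul hN j' hj') (rul hN (j + 3 * w) hi)
    (rul hN j hj)
  have a1 : ¬ rel w σ (lab hN y) (rul hN j' hj') := by rw [rel_lab_rul]; omega
  have a2 : rel w τ (lab hN y) (rul hN j' hj') := by rw [rel_lab_rul]; omega
  have a3 : ¬ rel w σ (lab hN y) (rul hN j hj) := by rw [rel_lab_rul]; omega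
  have a4 : rel w τ (lab hN y) (rul hN j hj) := by rw [rel_lab_rul]; omega
  have a5 : rel w σ (rul hN (j + 3 * w) hi) (rul hN j hj) := by rw [rel_rul_rul]
  have a6 : rel w τ (rul hN (j + 3 * w) hi) (rul hN j hj) := by rw [rel_rul_rul]
  have a7 : ¬ rel w σ (rul hN (j + 3 * w) hi) (rul hN j' hj') := by rw [rel_rul_rul]; omega
  have a8 : ¬ rel w τ (rul hN (j + 3 * w) hi) (rul hN j' hj') := by rw [rel_rul_rul]; omega
  rw [mx_ft a1 a2, mx_tt a5 a6, mx_ft a3 a4, mx_ff a7 a8] at e1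
  rw [mx_tf a2 a1, mx_tt a6 a5, mx_tf a4 a3, mx_ff a8 a7] at e2
  unfold lr
  linarith

/-- `α` is the value of the label `y` -/
def HasVal (C : Finset (Equiv.Perm (Fin n))) (lam : OffDiag N → ℝ) (y : Fin n) (α : ℝ) : Prop :=
  ∀ (j : ℕ) (hj : j ≤ J n w), ∀ σ ∈ C, ∀ τ ∈ C, 3 * (σ y).val + 1 < j →
    j ≤ 3 * (τ y).val + 1 → lr hN lam y j hj = α

include hw hC in
theorem exists_hasVal (y : Fin n) : ∃ α, HasVal hN C lam y α := by
  by_cases hex : ∃ (j : ℕ) (_ : j ≤ J n w), ∃ σ ∈ C, ∃ τ ∈ C, 3 * (σ y).val + 1 < j ∧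
    j ≤ 3 * (τ y).val + 1
  · obtain ⟨j, hj, σ, hσ, τ, hτ, h1, h2⟩ := hex
    refine ⟨lr hN lam y j hj, fun j' hj' σ' hσ' τ' hτ' h1' h2' => ?_⟩
    rcases lt_trichotomy j j' with h | h | h
    · exact (lr_mono hN hw hC hj hj' h hσ hτ' h1 h2').symm
    · subst h; rfl
    · exact lr_mono hN hw hC hj' hj h hσ' hτ h1' h2
  · push Not at hex
    refine ⟨0, fun j hj σ hσ τ hτ h1 h2 => ?_⟩
    exact absurd (hex j hj σ hσ τ hτ h1) (not_lt.2 h2)

include hw hC in
theorem HasVal.rl {y : Fin n} {α : ℝ} (h : HasVal hN C lam y α) {i : ℕ} (hi : i ≤ J n w)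
    {σ τ : Equiv.Perm (Fin n)} (hσ : σ ∈ C) (hτ : τ ∈ C) (h1 : 6 * w + 3 * (σ y).val ≤ i)
    (h2 : i < 6 * w + 3 * (τ y).val) : entry lam (rul hN i hi) (lab hN y) = α := by
  have hj : i - 6 * w + 2 ≤ J n w := by omega
  have hh : i - 3 * w + 1 ≤ J n w := by omega
  have h3 := h (i - 6 * w + 2) hj σ hσ τ hτ (by omega) (by omega)
  have e1 := (mix_ineq hw hC hσ hτ).2 (rul hN i hi) (lab hN y) (rul hN (i - 6 * w + 2) hj)
    (rul hN (i - 3 * w + 1) hh)
  have e2 := (mix_ineq hw hC hτ hσ).2 (rul hN i hi) (lab hN y) (rul hN (i - 6 * w + 2) hj)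
    (rul hN (i - 3 * w + 1) hh)
  have a1 : rel w σ (rul hN i hi) (lab hN y) := by rw [rel_rul_lab]; omega
  have a2 : ¬ rel w τ (rul hN i hi) (lab hN y) := by rw [rel_rul_lab]; omega
  have a3 : ¬ rel w σ (lab hN y) (rul hN (i - 6 * w + 2) hj) := by rw [rel_lab_rul]; omega
  have a4 : rel w τ (lab hN y) (rul hN (i - 6 * w + 2) hj) := by rw [rel_lab_rul]; omega
  have a5 : ∀ ρ : Equiv.Perm (Fin n), ¬ rel w ρ (rul hN i hi) (rul hN (i - 3 * w + 1) hh) := by
    intro ρ; rw [rel_rul_rul]; omega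
  have a6 : ∀ ρ : Equiv.Perm (Fin n), ¬ rel w ρ (rul hN (i - 3 * w + 1) hh) (rul hN (i - 6 * w + 2) hj) := by
    intro ρ; rw [rel_rul_rul]; omega
  rw [mx_tf a1 a2, mx_ft a3 a4, mx_ff (a5 σ) (a5 τ), mx_ff (a6 σ) (a6 τ)] at e1
  rw [mx_ft a2 a1, mx_tf a4 a3, mx_ff (a5 τ) (a5 σ), mx_ff (a6 τ) (a6 σ)] at e2
  unfold lr at h3
  linarith

/-! ### Pairs of labels -/

theorem i_le {u : ℕ} (hu : u < n) : 6 * w + 3 * u ≤ J n w := by unfold J; omega
theorem j_le {v : ℕ} (hv : v < n) : 3 * v + 2 ≤ J n w := by unfold J; omega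

include hw hC in
/-- (C1): if `u + w ≤ v` -/
theorem c1 {σ τ : Equiv.Perm (Fin n)} (hσ : σ ∈ C) (hτ : τ ∈ C) (y y' : Fin n) {u v : ℕ}
    (hu : u < n) (hv : v < n) (h : u + w ≤ v) :
    mx (3 * v + 1 ≤ 3 * (σ y').val + 1) (3 * v + 1 ≤ 3 * (τ y').val + 1)
      (lr hN lam y' (3 * v + 1) (by have := j_le (w := w) hv; omega)) +
    mx (6 * w + 3 * (σ y).val ≤ 6 * w + 3 * u) (6 * w + 3 * (τ y).val ≤ 6 * w + 3 * u)
      (entry lam (rul hN (6 * w + 3 * u) (i_le hu)) (lab hN y)) ≤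
    1 + mx ((σ y).val + w ≤ (σ y').val) ((τ y).val + w ≤ (τ y').val)
      (entry lam (lab hN y') (lab hN y)) := by
  have hj : 3 * v + 1 ≤ J n w := by have := j_le (w := w) hv; omega
  have e1 := (mix_ineq hw hC hσ hτ).1 (lab hN y') (rul hN (3 * v + 1) hj)
    (rul hN (6 * w + 3 * u) (i_le hu)) (lab hN y)
  have a1 : ∀ ρ : Equiv.Perm (Fin n), ¬ rel w ρ (rul hN (6 * w + 3 * u) (i_le hu)) (rul hN (3 * v + 1) hj) := by
    intro ρ; rw [rel_rul_rul]; omega
  rw [mx_ff (a1 σ) (a1 τ)] at e1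
  simp only [rel_lab_rul, rel_rul_lab, rel_lab_lab] at e1
  unfold lr
  linarith

include hw hC in
/-- (C2): if `v < u + w` -/
theorem c2 {σ τ : Equiv.Perm (Fin n)} (hσ : σ ∈ C) (hτ : τ ∈ C) (y y' : Fin n) {u v : ℕ}
    (hu : u < n) (hv : v < n) (h : v < u + w) :
    mx ((σ y).val + w ≤ (σ y').val) ((τ y).val + w ≤ (τ y').val)
      (entry lam (lab hN y') (lab hN y)) ≤
    mx (3 * v + 2 ≤ 3 * (σ y').val + 1) (3 * v + 2 ≤ 3 * (τ y').val + 1)
      (lr hN lam y' (3 * v + 2) (j_le hv)) +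
    mx (6 * w + 3 * (σ y).val ≤ 6 * w + 3 * u - 1) (6 * w + 3 * (τ y).val ≤ 6 * w + 3 * u - 1)
      (entry lam (rul hN (6 * w + 3 * u - 1) ((Nat.sub_le _ _).trans (i_le hu)))
        (lab hN y)) := by
  have hi : 6 * w + 3 * u - 1 ≤ J n w := (Nat.sub_le _ _).trans (i_le hu)
  have e1 := (mix_ineq hw hC hσ hτ).1 (lab hN y') (lab hN y)
    (rul hN (6 * w + 3 * u - 1) hi) (rul hN (3 * v + 2) (j_le hv))
  have a1 : ∀ ρ : Equiv.Perm (Fin n), rel w ρ (rul hN (6 * w + 3 * u - 1) hi) (rul hN (3 * v + 2) (j_le hv)) := by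
    intro ρ; rw [rel_rul_rul]; omega
  rw [mx_tt (a1 σ) (a1 τ)] at e1
  simp only [rel_lab_rul, rel_rul_lab, rel_lab_lab] at e1
  unfold lr
  linarith

variable {y y' : Fin n} {α β : ℝ} (hα : HasVal hN C lam y α) (hβ : HasVal hN C lam y' β)

include hw hC hα hβ in
theorem pair_S {σ τ : Equiv.Perm (Fin n)} (hσ : σ ∈ C) (hτ : τ ∈ C)
    (h1 : (σ y).val + w ≤ (σ y').val ↔ (τ y).val + w ≤ (τ y').val)
    (h2 : ¬ ((σ y).val + w ≤ (τ y').val ↔ (σ y).val + w ≤ (σ y').val)) : α = β := by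
  by_cases h12 : (σ y).val + w ≤ (τ y').val
  · have h11 : ¬ ((σ y).val + w ≤ (σ y').val) := fun h => h2 ⟨fun _ => h, fun _ => h12⟩
    have h22 : ¬ ((τ y).val + w ≤ (τ y').val) := fun h => h11 (h1.2 h)
    have e1 := c1 hN hw hC hσ hτ y y' (σ y).isLt (τ y').isLt h12
    have e2 := c1 hN hw hC hτ hσ y y' (σ y).isLt (τ y').isLt h12
    rw [mx_ft (by omega) (by omega), mx_tf (by omega) (by omega), mx_ff h11 h22] at e1
    rw [mx_tf (by omega) (by omega), mx_ft (by omega) (by omega), mx_ff h22 h11] at e2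
    have b1 := hβ (3 * (τ y').val + 1) (by have := j_le (w := w) (τ y').isLt; omega) σ hσ τ hτ
      (by omega) (by omega)
    have b2 := hα.rl hN hw hC (i_le (σ y).isLt) hσ hτ (le_refl _) (by omega)
    rw [b1, b2] at e1 e2
    linarith
  · have h11 : (σ y).val + w ≤ (σ y').val := by
      by_contra h; exact h2 ⟨fun h' => absurd h' h12, fun h' => absurd h' h⟩
    have h22 := h1.1 h11
    have e1 := c2 hN hw hC hσ hτ y y' (σ y).isLt (τ y').isLt (by omega)
    have e2 := c2 hN hw hC hτ hσ y y' (σ y).isLt (τ y').isLt (by omega)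
    rw [mx_tt h11 h22, mx_tf (by omega) (by omega), mx_ft (by omega) (by omega)] at e1
    rw [mx_tt h22 h11, mx_ft (by omega) (by omega), mx_tf (by omega) (by omega)] at e2
    have b1 := hβ (3 * (τ y').val + 2) (j_le (τ y').isLt) τ hτ σ hσ (by omega) (by omega)
    have b2 := hα.rl hN hw hC ((Nat.sub_le _ 1).trans (i_le (σ y).isLt)) hτ hσ
      (by omega) (by omega)
    rw [b1, b2] at e1 e2
    linarith

include hw hC hα in
theorem pair_L {σ τ : Equiv.Perm (Fin n)} (hσ : σ ∈ C) (hτ : τ ∈ C)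
    (h1 : (σ y).val + w ≤ (σ y').val ↔ (σ y).val + w ≤ (τ y').val)
    (h2 : ¬ ((σ y).val + w ≤ (τ y').val ↔ (τ y).val + w ≤ (τ y').val)) :
    entry lam (lab hN y') (lab hN y) = α := by
  by_cases h12 : (σ y).val + w ≤ (τ y').val
  · have h22 : ¬ ((τ y).val + w ≤ (τ y').val) := fun h => h2 ⟨fun _ => h, fun _ => h12⟩
    have h11 := h1.2 h12
    have e1 := c1 hN hw hC hσ hτ y y' (u := (σ y).val) (v := min (σ y').val (τ y').val)
      (σ y).isLt (by have := (σ y').isLt; omega) (by omega)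
    have e2 := c1 hN hw hC hτ hσ y y' (u := (σ y).val) (v := min (σ y').val (τ y').val)
      (σ y).isLt (by have := (σ y').isLt; omega) (by omega)
    rw [mx_tt (by omega) (by omega), mx_tf (by omega) (by omega), mx_tf h11 h22] at e1
    rw [mx_tt (by omega) (by omega), mx_ft (by omega) (by omega), mx_ft h22 h11] at e2
    have b2 := hα.rl hN hw hC (i_le (σ y).isLt) hσ hτ (le_refl _) (by omega)
    rw [b2] at e1 e2
    linarith
  · have h22 : (τ y).val + w ≤ (τ y').val := by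
      by_contra h; exact h2 ⟨fun h' => absurd h' h12, fun h' => absurd h' h⟩
    have h11 : ¬ ((σ y).val + w ≤ (σ y').val) := fun h => h12 (h1.1 h)
    have e1 := c2 hN hw hC hσ hτ y y' (u := (σ y).val) (v := max (σ y').val (τ y').val)
      (σ y).isLt (by have := (σ y').isLt; have := (τ y').isLt; omega) (by omega)
    have e2 := c2 hN hw hC hτ hσ y y' (u := (σ y).val) (v := max (σ y').val (τ y').val)
      (σ y).isLt (by have := (σ y').isLt; have := (τ y').isLt; omega) (by omega)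
    rw [mx_ft h11 h22, mx_ff (by omega) (by omega), mx_ft (by omega) (by omega)] at e1
    rw [mx_tf h22 h11, mx_ff (by omega) (by omega), mx_tf (by omega) (by omega)] at e2
    have b2 := hα.rl hN hw hC ((Nat.sub_le _ 1).trans (i_le (σ y).isLt)) hτ hσ
      (by omega) (by omega)
    rw [b2] at e1 e2
    linarith

include hw hC hβ in
theorem pair_U {σ τ : Equiv.Perm (Fin n)} (hσ : σ ∈ C) (hτ : τ ∈ C)
    (h1 : ¬ ((σ y).val + w ≤ (σ y').val ↔ (σ y).val + w ≤ (τ y').val))
    (h2 : (σ y).val + w ≤ (τ y').val ↔ (τ y).val + w ≤ (τ y').val) :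
    entry lam (lab hN y') (lab hN y) = β := by
  by_cases h12 : (σ y).val + w ≤ (τ y').val
  · have h11 : ¬ ((σ y).val + w ≤ (σ y').val) := fun h => h1 ⟨fun _ => h12, fun _ => h⟩
    have h22 := h2.1 h12
    have e1 := c1 hN hw hC hσ hτ y y' (u := max (σ y).val (τ y).val) (v := (τ y').val)
      (by have := (σ y).isLt; have := (τ y).isLt; omega) (τ y').isLt (by omega)
    have e2 := c1 hN hw hC hτ hσ y y' (u := max (σ y).val (τ y).val) (v := (τ y').val)
      (by have := (σ y).isLt; have := (τ y).isLt; omega) (τ y').isLt (by omega)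
    rw [mx_ft (by omega) (by omega), mx_tt (by omega) (by omega), mx_ft h11 h22] at e1
    rw [mx_tf (by omega) (by omega), mx_tt (by omega) (by omega), mx_tf h22 h11] at e2
    have b1 := hβ (3 * (τ y').val + 1) (by have := j_le (w := w) (τ y').isLt; omega) σ hσ τ hτ
      (by omega) (by omega)
    rw [b1] at e1 e2
    linarith
  · have h11 : (σ y).val + w ≤ (σ y').val := by
      by_contra h; exact h1 ⟨fun h' => absurd h' h, fun h' => absurd h' h12⟩
    have h22 : ¬ ((τ y).val + w ≤ (τ y').val) := fun h => h12 (h2.2 h)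
    have e1 := c2 hN hw hC hσ hτ y y' (u := min (σ y).val (τ y).val) (v := (τ y').val)
      (by have := (σ y).isLt; omega) (τ y').isLt (by omega)
    have e2 := c2 hN hw hC hτ hσ y y' (u := min (σ y).val (τ y).val) (v := (τ y').val)
      (by have := (σ y).isLt; omega) (τ y').isLt (by omega)
    rw [mx_tf h11 h22, mx_tf (by omega) (by omega), mx_ff (by omega) (by omega)] at e1
    rw [mx_ft h22 h11, mx_ft (by omega) (by omega), mx_ff (by omega) (by omega)] at e2
    have b1 := hβ (3 * (τ y').val + 2) (j_le (τ y').isLt) τ hτ σ hσ (by omega) (by omega)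
    rw [b1] at e1 e2
    linarith

include hw hC hα hβ in
/-- Labels that cover each other have the same value. -/
theorem cover_eq {σ : Equiv.Perm (Fin n)} (hσ : σ ∈ C)
    (ha : ∃ a ∈ C, (a y).val + w ≤ (σ y').val) (ha' : ∃ a ∈ C, (σ y').val < (a y).val + w)
    (hb : ∃ b ∈ C, (b y').val < (σ y).val + w) (hb' : ∃ b ∈ C, (σ y).val + w ≤ (b y').val) :
    α = β := by
  have key : ∀ a ∈ C, ∀ b ∈ C,
      ¬ ((a y).val + w ≤ (σ y').val ↔ (σ y).val + w ≤ (σ y').val) →
      ¬ ((σ y).val + w ≤ (b y').val ↔ (σ y).val + w ≤ (σ y').val) → α = β := by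
    intro a ha b hb h1 h2
    by_cases h3 : ((a y).val + w ≤ (a y').val ↔ (σ y).val + w ≤ (σ y').val)
    · refine pair_S hN hw hC hα hβ ha hσ h3 ?_
      intro h4; exact h1 (h4.trans h3)
    · have e1 := pair_L hN hw hC hα (y' := y') ha hσ (by tauto) h1
      by_cases h4 : ((σ y).val + w ≤ (σ y').val ↔ (b y).val + w ≤ (b y').val)
      · exact pair_S hN hw hC hα hβ hσ hb h4 h2
      · have e2 := pair_U hN hw hC hβ (y := y) hσ hb (by tauto) (by tauto)
        rw [← e1, e2]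
  obtain ⟨a, ha, h1⟩ := ha
  obtain ⟨a', ha', h1'⟩ := ha'
  obtain ⟨b, hb, h2⟩ := hb
  obtain ⟨b', hb', h2'⟩ := hb'
  by_cases h : (σ y).val + w ≤ (σ y').val
  · exact key a' ha' b hb (by omega) (by omega)
  · exact key a ha b' hb' (by omega) (by omega)

end

end Pool.Agent.LibSemiorder
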