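import Mathlib
import Pool.Agent.LibSemiorder.Star
import Pool.Agent.LibSemiorder.Count

set_option autoImplicit false

/-!
The lower bound for the number of arcs.
-/

namespace Pool.Agent.LibSemiorder

open Finset Nat

variable {n N w : ℕ}

/-- the coordinates between a label and the rulers -/
def St (hN : J n w + 1 + n ≤ N) (y : Fin n) : Set (OffDiag N) :=
  {i | ∃ (j : ℕ) (hj : j ≤ J n w), i.1 = (lab hN y, rul hN j hj)}

theorem lab_ne_rul (hN : J n w + 1 + n ≤ N) (y : Fin n) {j : ℕ} (hj : j ≤ J n w) :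
    lab hN y ≠ rul hN j hj := by
  intro h
  have := congrArg Fin.val h
  simp only [lab, rul] at this
  omega

open Classical in
theorem chi_apply (σ : Equiv.Perm (Fin n)) (i : OffDiag N) :
    chi n N w σ i = if rel w σ i.1.1 i.1.2 then 1 else 0 := rfl

theorem chi_ne {σ τ : Equiv.Perm (Fin n)} {i : OffDiag N}
    (h : chi n N w σ i ≠ chi n N w τ i) :
    (¬ rel w σ i.1.1 i.1.2 ∧ rel w τ i.1.1 i.1.2) ∨
      (¬ rel w τ i.1.1 i.1.2 ∧ rel w σ i.1.1 i.1.2) := by
  classical
  rw [chi_apply, chi_apply] at h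
  by_cases h1 : rel w σ i.1.1 i.1.2 <;> by_cases h2 : rel w τ i.1.1 i.1.2 <;> simp_all

theorem entry_of {lam : OffDiag N → ℝ} {i : OffDiag N} {a b : Fin N} (h : i.1 = (a, b)) :
    entry lam a b = lam i := by
  obtain ⟨⟨a', b'⟩, hab⟩ := i
  simp only [Prod.mk.injEq] at h
  obtain ⟨rfl, rfl⟩ := h
  have : a' ≠ b' := hab
  simp [entry, this]

theorem star_eq (hN : J n w + 1 + n ≤ N) (hw : 1 ≤ w) (C : Finset (Equiv.Perm (Fin n)))
    (lam : OffDiag N → ℝ) (hC : Crossing (chi n N w) (semiorderPolytope N) C lam) (y : Fin n)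
    (i : OffDiag N) (hi : i ∈ St hN y) (j : OffDiag N) (hj : j ∈ St hN y)
    (hfi : Free (chi n N w) C i) (hfj : Free (chi n N w) C j) : lam i = lam j := by
  obtain ⟨α, hα⟩ := exists_hasVal hN hw hC y
  have key : ∀ i ∈ St hN y, Free (chi n N w) C i → lam i = α := by
    rintro i ⟨k, hk, hik⟩ ⟨σ, hσ, τ, hτ, hne⟩
    rw [← entry_of (lam := lam) hik]
    have h1 := chi_ne hne
    rw [hik] at h1
    simp only [rel_lab_rul] at h1
    rcases h1 with h1 | h1
    · exact hα k hk σ hσ τ hτ (by omega) (by omega)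
    · exact hα k hk τ hτ σ hσ (by omega) (by omega)
  rw [key i hi hfi, key j hj hfj]

/-- a free coordinate with the value of the label -/
theorem exists_free (hN : J n w + 1 + n ≤ N) {C : Finset (Equiv.Perm (Fin n))}
    {lam : OffDiag N → ℝ} {y : Fin n} {α : ℝ} (hα : HasVal hN C lam y α)
    {σ τ : Equiv.Perm (Fin n)} (hσ : σ ∈ C) (hτ : τ ∈ C) (h : (σ y).val < (τ y).val) :
    ∃ i ∈ St hN y, Free (chi n N w) C i ∧ lam i = α := by
  classical
  have hj : 3 * (τ y).val + 1 ≤ J n w := by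
    have := (τ y).isLt; unfold J; omega
  refine ⟨⟨(lab hN y, rul hN _ hj), lab_ne_rul hN y hj⟩, ⟨_, hj, rfl⟩, ⟨σ, hσ, τ, hτ, ?_⟩, ?_⟩
  · rw [chi_apply, chi_apply]
    have h1 : ¬ rel w σ (lab hN y) (rul hN _ hj) := by rw [rel_lab_rul]; omega
    have h2 : rel w τ (lab hN y) (rul hN _ hj) := by rw [rel_lab_rul]
    simp [h1, h2]
  · rw [← hα _ hj σ hσ τ hτ (by omega) (le_refl _)]
    exact (entry_of rfl).symm

theorem card_filter_val_le {n : ℕ} (S : Finset ℕ) :
    (univ.filter fun p : Fin n => p.val ∈ S).card ≤ S.card := by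
  refine Finset.card_le_card_of_injOn (fun p : Fin n => p.val) ?_ ?_
  · intro p hp
    simp only [coe_filter, mem_univ, true_and, Set.mem_ofPred_eq] at hp
    exact hp
  · intro p _ q _ h
    exact Fin.ext h

/-- the size threshold for classes -/
def thr (K b : ℕ) : ℕ :=
  (K * (4 * b))! * 2 ^ b / b ! + (K * (4 * b))! * (16 * b) ^ (K * b) / (K * b)!

theorem main_class {K b : ℕ} (hK : 1 ≤ K) (hb : 1 ≤ b)
    (hN : J (K * (4 * b)) (4 * b) + 1 + K * (4 * b) ≤ N)
    (C : Finset (Equiv.Perm (Fin (K * (4 * b))))) (lam : OffDiag N → ℝ)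
    (hT : thr K b < C.card)
    (hC : Crossing (chi (K * (4 * b)) N (4 * b)) (semiorderPolytope N) C lam) :
    ∃ μ : ℝ, ∃ Y : Finset (Fin (K * (4 * b))), Fintype.card (Fin (K * (4 * b))) < 2 * Y.card ∧
      ∀ y ∈ Y, ∃ i ∈ St hN y, Free (chi (K * (4 * b)) N (4 * b)) C i ∧ lam i = μ := by
  classical
  have hw : 1 ≤ 4 * b := by omega
  have hCne : C.Nonempty := by
    rw [← Finset.card_pos]; omega
  choose α hα using fun y => exists_hasVal hN hw hC y
  choose σm hσm hmin using fun y => Finset.exists_min_image C (fun σ => (σ y).val) hCne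
  choose σM hσM hmax using fun y => Finset.exists_max_image C (fun σ => (σ y).val) hCne
  -- the exceptional sets
  let J1 : Fin (K * (4 * b)) → Finset (Fin (K * (4 * b))) := fun y => {σm y y, σM y y}
  let J2 : Fin (K * (4 * b)) → Finset (Fin (K * (4 * b))) := fun y =>
    (univ.filter fun p => p.val ∈ Finset.Ico (σm y y).val ((σm y y).val + 2 * (4 * b))) ∪
    (univ.filter fun p => p.val ∈ Finset.Ioc ((σM y y).val - 2 * (4 * b)) (σM y y).val)
  have hJ1 : ∀ y, (J1 y).card ≤ 2 := fun y => Finset.card_le_two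
  have hJ2 : ∀ y, (J2 y).card ≤ 16 * b := by
    intro y
    refine (Finset.card_union_le _ _).trans ?_
    have h1 := card_filter_val_le (n := K * (4 * b))
      (Finset.Ico (σm y y).val ((σm y y).val + 2 * (4 * b)))
    have h2 := card_filter_val_le (n := K * (4 * b))
      (Finset.Ioc ((σM y y).val - 2 * (4 * b)) (σM y y).val)
    rw [Nat.card_Ico] at h1
    rw [Nat.card_Ioc] at h2
    omega
  have c1 := card_many b J1 hJ1
  have c2 := card_many (K * b) J2 hJ2
  rw [← Nat.le_div_iff_mul_le (Nat.factorial_pos _)] at c1 c2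
  obtain ⟨σ, hσ, hσ1, hσ2⟩ : ∃ σ ∈ C, (univ.filter fun y => σ y ∈ J1 y).card < b ∧
      (univ.filter fun y => σ y ∈ J2 y).card < K * b := by
    by_contra hcon
    push Not at hcon
    have hsub : C ⊆ (univ.filter fun σ : Equiv.Perm (Fin (K * (4 * b))) =>
        b ≤ (univ.filter fun y => σ y ∈ J1 y).card) ∪
        (univ.filter fun σ : Equiv.Perm (Fin (K * (4 * b))) =>
        K * b ≤ (univ.filter fun y => σ y ∈ J2 y).card) := by
      intro σ hσ
      rw [mem_union, mem_filter, mem_filter]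
      by_cases h : b ≤ (univ.filter fun y => σ y ∈ J1 y).card
      · exact Or.inl ⟨mem_univ _, h⟩
      · exact Or.inr ⟨mem_univ _, hcon σ hσ (not_le.1 h)⟩
    have h1 := (Finset.card_le_card hsub).trans (Finset.card_union_le _ _)
    unfold thr at hT
    omega
  let B := univ.filter fun y => σ y ∈ J1 y
  let Sh := univ.filter fun y => σ y ∈ J2 y
  have hB : ∀ y, y ∉ B → (σm y y).val < (σ y).val ∧ (σ y).val < (σM y y).val := by
    intro y hy
    have h1 : σ y ∉ J1 y := fun h => hy (mem_filter.2 ⟨mem_univ _, h⟩)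
    simp only [J1, mem_insert, mem_singleton, not_or] at h1
    have h2 := hmin y σ hσ
    have h3 := hmax y σ hσ
    have h4 : (σ y).val ≠ (σm y y).val := fun h => h1.1 (Fin.ext h)
    have h5 : (σ y).val ≠ (σM y y).val := fun h => h1.2 (Fin.ext h)
    omega
  have hSh : ∀ y, y ∉ Sh → (σm y y).val + 2 * (4 * b) ≤ (σ y).val ∧
      (σ y).val + 2 * (4 * b) ≤ (σM y y).val := by
    intro y hy
    have h1 : σ y ∉ J2 y := fun h => hy (mem_filter.2 ⟨mem_univ _, h⟩)
    simp only [J2, mem_union, mem_filter, mem_univ, true_and, mem_Ico, mem_Ioc, not_or] at h1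
    have h2 := hmin y σ hσ
    have h3 := hmax y σ hσ
    omega
  -- linking
  have hcol : ∀ y y', y ∉ B → y' ∉ B → (σ y').val = (σ y).val + 4 * b → α y = α y' := by
    intro y y' hy hy' h
    have h1 := hB y hy
    have h2 := hB y' hy'
    exact cover_eq hN hw hC (hα y) (hα y') hσ ⟨σm y, hσm y, by omega⟩ ⟨σM y, hσM y, by omega⟩
      ⟨σm y', hσm y', by omega⟩ ⟨σM y', hσM y', by omega⟩
  have hrow : ∀ y y', y ∉ Sh → y' ∉ Sh → (σ y').val < (σ y).val + 4 * b →
      (σ y).val < (σ y').val + 4 * b → α y = α y' := by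
    intro y y' hy hy' h h'
    have h1 := hSh y hy
    have h2 := hSh y' hy'
    exact cover_eq hN hw hC (hα y) (hα y') hσ ⟨σm y, hσm y, by omega⟩ ⟨σM y, hσM y, by omega⟩
      ⟨σm y', hσm y', by omega⟩ ⟨σM y', hσM y', by omega⟩
  -- positions
  let P : Fin K × Fin (4 * b) → Fin (K * (4 * b)) := fun q => σ.symm (finProdFinEquiv q)
  have hPv : ∀ q, (σ (P q)).val = q.2.val + 4 * b * q.1.val := by
    intro q
    simp [P, finProdFinEquiv]
  have hPinj : Function.Injective P := σ.symm.injective.comp finProdFinEquiv.injective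
  -- a good row
  obtain ⟨r, hr⟩ : ∃ r : Fin K, ((univ : Finset (Fin (4 * b))).filter
      fun t => P (r, t) ∈ Sh).card < b := by
    by_contra hcon
    push Not at hcon
    have h1 : ∑ r : Fin K, b ≤ ∑ r : Fin K, ((univ : Finset (Fin (4 * b))).filter
      fun t => P (r, t) ∈ Sh).card := Finset.sum_le_sum fun r _ => hcon r
    rw [sum_const, Finset.card_univ, Fintype.card_fin, smul_eq_mul] at h1
    have h2 : ∑ r : Fin K, ((univ : Finset (Fin (4 * b))).filter
        fun t => P (r, t) ∈ Sh).card = ((univ : Finset (Fin K × Fin (4 * b))).filter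
        fun q => P q ∈ Sh).card := by
      rw [Finset.card_filter, ← Finset.univ_product_univ, Finset.sum_product]
      apply Finset.sum_congr rfl
      intro r _
      rw [Finset.card_filter]
    have h3 : ((univ : Finset (Fin K × Fin (4 * b))).filter fun q => P q ∈ Sh).card ≤
        Sh.card := by
      refine Finset.card_le_card_of_injOn P ?_ hPinj.injOn
      intro q hq
      simp only [coe_filter, mem_univ, true_and, Set.mem_ofPred_eq] at hq
      exact hq
    have h4 : Sh.card < K * b := hσ2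
    omega
  let Bc := (univ : Finset (Fin (4 * b))).filter fun t => ∃ r' : Fin K, P (r', t) ∈ B
  have hBc : Bc.card ≤ B.card := by
    have : Bc ⊆ B.image fun y => (finProdFinEquiv.symm (σ y)).2 := by
      intro t ht
      obtain ⟨r', hr'⟩ := (mem_filter.1 ht).2
      rw [mem_image]
      refine ⟨_, hr', ?_⟩
      simp [P]
    exact (Finset.card_le_card this).trans Finset.card_image_le
  let Sc := (univ : Finset (Fin (4 * b))).filter fun t => P (r, t) ∈ Sh
  let G := (univ : Finset (Fin (4 * b))) \ (Bc ∪ Sc)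
  have hG : 2 * b < G.card := by
    have h1 : G.card = 4 * b - (Bc ∪ Sc).card := by
      rw [Finset.card_sdiff_of_subset (subset_univ _), Finset.card_univ, Fintype.card_fin]
    have h2 := Finset.card_union_le Bc Sc
    have h3 : Sc.card < b := hr
    have h4 : B.card < b := hσ1
    omega
  have hGB : ∀ t ∈ G, ∀ r', P (r', t) ∉ B := by
    intro t ht r' h
    apply (mem_sdiff.1 ht).2
    exact mem_union_left _ (mem_filter.2 ⟨mem_univ _, r', h⟩)
  have hGS : ∀ t ∈ G, P (r, t) ∉ Sh := by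
    intro t ht h
    apply (mem_sdiff.1 ht).2
    exact mem_union_right _ (mem_filter.2 ⟨mem_univ _, h⟩)
  have hcolumn : ∀ t ∈ G, ∀ r', α (P (r', t)) = α (P (⟨0, by omega⟩, t)) := by
    intro t ht r'
    obtain ⟨r', hr'⟩ := r'
    induction r' with
    | zero => rfl
    | succ k ih =>
      rw [← ih (by omega)]
      symm
      apply hcol _ _ (hGB t ht _) (hGB t ht _)
      rw [hPv, hPv]
      show t.val + 4 * b * (k + 1) = t.val + 4 * b * k + 4 * b
      ring
  obtain ⟨t₀, ht₀⟩ : G.Nonempty := by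
    rw [← Finset.card_pos]; omega
  refine ⟨α (P (r, t₀)), (univ ×ˢ G).image P, ?_, ?_⟩
  · rw [Finset.card_image_of_injective _ hPinj, Finset.card_product, Finset.card_univ,
      Fintype.card_fin, Fintype.card_fin]
    have : K * (2 * b + 1) ≤ K * G.card := Nat.mul_le_mul_left K hG
    nlinarith
  · intro y hy
    rw [mem_image] at hy
    obtain ⟨⟨r', t⟩, hq, rfl⟩ := hy
    have ht : t ∈ G := (mem_product.1 hq).2
    have h1 := hB _ (hGB t ht r')
    obtain ⟨i, hi, hf, hv⟩ := exists_free hN (hα (P (r', t))) (hσm (P (r', t)))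
      (hσM (P (r', t))) (by omega)
    refine ⟨i, hi, hf, ?_⟩
    rw [hv, hcolumn t ht r', ← hcolumn t ht r]
    apply hrow _ _ (hGS t ht) (hGS t₀ ht₀)
    · rw [hPv, hPv]
      show t₀.val + 4 * b * r.val < t.val + 4 * b * r.val + 4 * b
      have := t₀.isLt; omega
    · rw [hPv, hPv]
      show t.val + 4 * b * r.val < t₀.val + 4 * b * r.val + 4 * b
      have := t.isLt; omega

/-- The main bound. -/
theorem main_bound {K b : ℕ} (hK : 1 ≤ K) (hb : 1 ≤ b)
    (hN : J (K * (4 * b)) (4 * b) + 1 + K * (4 * b) ≤ N) (D : Network) (k : ℝ)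
    (h : IsFlowExtension D k (semiorderPolytope N)) :
    (K * (4 * b))! ≤ Fintype.card D.A * thr K b := by
  classical
  obtain ⟨hk, π, hπ⟩ := h
  have hw : 1 ≤ 4 * b := by omega
  have hP : ∀ z ∈ semiorderPolytope N, ∀ i, 0 ≤ z i ∧ z i ≤ 1 := fun z hz i => cube hz i
  have h01 : ∀ (σ : Equiv.Perm (Fin (K * (4 * b)))) i,
      chi (K * (4 * b)) N (4 * b) σ i = 0 ∨ chi (K * (4 * b)) N (4 * b) σ i = 1 := by
    intro σ i
    rw [chi_apply]
    split_ifs
    · exact Or.inr rfl
    · exact Or.inl rfl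
  have hmem : ∀ σ : Equiv.Perm (Fin (K * (4 * b))),
      chi (K * (4 * b)) N (4 * b) σ ∈ semiorderPolytope N := fun σ =>
    subset_convexHull ℝ _ ⟨_, rel_semiorder hw σ, rfl⟩
  choose W hW hval using fun σ : Equiv.Perm (Fin (K * (4 * b))) =>
    Network.exists_walk_vertex hP hk π hπ (hmem σ) (h01 σ)
  have := Network.card_le_arcs (S := Equiv.Perm (Fin (K * (4 * b)))) (L := Fin (K * (4 * b)))
    (χ := chi (K * (4 * b)) N (4 * b)) hk hπ hP hW hval h01 (St hN) (thr K b)
    (fun C lam hC y i hi j hj hfi hfj => star_eq hN hw C lam hC y i hi j hj hfi hfj)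
    (fun C lam hT hC => main_class hK hb hN C lam hT hC)
  rwa [Fintype.card_perm, Fintype.card_fin] at this

end Pool.Agent.LibSemiorder
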