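import Mathlib
import Pool.Agent.LibSemiorder.Main

set_option autoImplicit false

/-!
Asymptotic form of the lower bound.
-/

namespace Pool.Agent.LibSemiorder

open Filter Nat

theorem fact_ge {m : ℕ} (hm : 1 ≤ m) :
    Real.exp (m * Real.log m - m) ≤ (m ! : ℝ) := by
  have h0 : (0 : ℝ) < m := by exact_mod_cast hm
  have h1 := Real.pow_div_factorial_le_exp (m : ℝ) h0.le m
  have h2 : (0 : ℝ) < (m ! : ℝ) := by exact_mod_cast Nat.factorial_pos m
  rw [div_le_iff₀ h2] at h1
  rw [Real.exp_sub, div_le_iff₀ (Real.exp_pos _), mul_comm (m ! : ℝ)]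
  refine le_trans (le_of_eq ?_) h1
  rw [mul_comm (m : ℝ), Real.exp_mul, Real.exp_log h0, Real.rpow_natCast]

theorem term_one {b : ℕ} (hb : 1 ≤ b) {M : ℝ} (hM : M ≤ b * (Real.log b - 2)) :
    (2 : ℝ) ^ b / (b ! : ℝ) ≤ Real.exp (-M) := by
  have h2 : (0 : ℝ) < (b ! : ℝ) := by exact_mod_cast Nat.factorial_pos b
  rw [div_le_iff₀ h2]
  have h3 : (2 : ℝ) ^ b ≤ Real.exp b := by
    have h4 : (2 : ℝ) ≤ Real.exp 1 := by
      have := Real.add_one_le_exp (1 : ℝ); linarith
    calc (2 : ℝ) ^ b ≤ Real.exp 1 ^ b := by gcongr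
      _ = Real.exp b := by rw [← Real.exp_nat_mul, mul_one]
  refine h3.trans ?_
  calc Real.exp b ≤ Real.exp (-M + (b * Real.log b - b)) := by
        apply Real.exp_le_exp.2; linarith
    _ = Real.exp (-M) * Real.exp (b * Real.log b - b) := Real.exp_add _ _
    _ ≤ Real.exp (-M) * (b ! : ℝ) := by
        apply mul_le_mul_of_nonneg_left (fact_ge hb) (Real.exp_pos _).le

theorem term_two {K b : ℕ} (hK : 1 ≤ K) (hb : 1 ≤ b) {M : ℝ}
    (hM : M ≤ (K * b : ℕ) * (Real.log K - 4)) :
    ((16 * b : ℕ) : ℝ) ^ (K * b) / ((K * b)! : ℝ) ≤ Real.exp (-M) := by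
  have h2 : (0 : ℝ) < ((K * b)! : ℝ) := by exact_mod_cast Nat.factorial_pos _
  have hKb : 1 ≤ K * b := Nat.mul_pos hK hb
  have hK0 : (0 : ℝ) < K := by exact_mod_cast hK
  have hb0 : (0 : ℝ) < b := by exact_mod_cast hb
  rw [div_le_iff₀ h2]
  have h3 : ((16 * b : ℕ) : ℝ) ^ (K * b) =
      Real.exp ((K * b : ℕ) * (Real.log 16 + Real.log b)) := by
    rw [Real.exp_nat_mul, Real.exp_add, Real.exp_log (by norm_num), Real.exp_log hb0]
    push_cast; rfl
  have h4 : Real.log ((K * b : ℕ) : ℝ) = Real.log K + Real.log b := by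
    push_cast
    rw [Real.log_mul hK0.ne' hb0.ne']
  have h16 : Real.log 16 ≤ 3 := by
    have h5 : Real.log 16 = 4 * Real.log 2 := by
      rw [show (16 : ℝ) = 2 ^ 4 by norm_num, Real.log_pow]; norm_num
    have := Real.log_two_lt_d9
    rw [h5]; linarith
  rw [h3]
  calc Real.exp ((K * b : ℕ) * (Real.log 16 + Real.log b)) ≤
        Real.exp (-M + ((K * b : ℕ) * Real.log ((K * b : ℕ) : ℝ) - (K * b : ℕ))) := by
        apply Real.exp_le_exp.2
        rw [h4]
        have h6 : ((K * b : ℕ) : ℝ) * Real.log 16 ≤ (K * b : ℕ) * 3 :=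
          mul_le_mul_of_nonneg_left h16 (Nat.cast_nonneg _)
        nlinarith
    _ = Real.exp (-M) * Real.exp ((K * b : ℕ) * Real.log ((K * b : ℕ) : ℝ) - (K * b : ℕ)) :=
        Real.exp_add _ _
    _ ≤ Real.exp (-M) * ((K * b)! : ℝ) := by
        apply mul_le_mul_of_nonneg_left (fact_ge hKb) (Real.exp_pos _).le

theorem arcs_ge {N K b : ℕ} (hK : 1 ≤ K) (hb : 1 ≤ b)
    (hN : J (K * (4 * b)) (4 * b) + 1 + K * (4 * b) ≤ N) {M : ℝ}
    (hM1 : M ≤ b * (Real.log b - 2)) (hM2 : M ≤ (K * b : ℕ) * (Real.log K - 4))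
    (D : Network) (k : ℝ) (h : IsFlowExtension D k (semiorderPolytope N)) :
    Real.exp M ≤ 2 * (Fintype.card D.A : ℝ) := by
  have h1 := main_bound hK hb hN D k h
  have h2 : ((K * (4 * b))! : ℝ) ≤ (Fintype.card D.A : ℝ) * (thr K b : ℝ) := by
    exact_mod_cast h1
  have hf : (0 : ℝ) < ((K * (4 * b))! : ℝ) := by exact_mod_cast Nat.factorial_pos _
  have h3 : (thr K b : ℝ) ≤ ((K * (4 * b))! : ℝ) * (2 * Real.exp (-M)) := by
    unfold thr
    push_cast
    have e1 : (((K * (4 * b))! * 2 ^ b / b ! : ℕ) : ℝ) ≤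
        ((K * (4 * b))! : ℝ) * Real.exp (-M) := by
      refine Nat.cast_div_le.trans ?_
      push_cast
      rw [mul_div_assoc]
      exact mul_le_mul_of_nonneg_left (term_one hb hM1) hf.le
    have e2 : (((K * (4 * b))! * (16 * b) ^ (K * b) / (K * b)! : ℕ) : ℝ) ≤
        ((K * (4 * b))! : ℝ) * Real.exp (-M) := by
      refine Nat.cast_div_le.trans ?_
      have := term_two hK hb hM2
      push_cast at this ⊢
      rw [mul_div_assoc]
      exact mul_le_mul_of_nonneg_left this hf.le
    linarith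
  have h4 : ((K * (4 * b))! : ℝ) * 1 ≤
      ((K * (4 * b))! : ℝ) * ((Fintype.card D.A : ℝ) * (2 * Real.exp (-M))) := by
    calc ((K * (4 * b))! : ℝ) * 1 = ((K * (4 * b))! : ℝ) := mul_one _
      _ ≤ (Fintype.card D.A : ℝ) * (thr K b : ℝ) := h2
      _ ≤ (Fintype.card D.A : ℝ) * (((K * (4 * b))! : ℝ) * (2 * Real.exp (-M))) :=
        mul_le_mul_of_nonneg_left h3 (Nat.cast_nonneg _)
      _ = _ := by ring
  have h5 := le_of_mul_le_mul_left h4 hf
  rw [Real.exp_neg] at h5
  have h6 := Real.exp_pos M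
  calc Real.exp M = Real.exp M * 1 := (mul_one _).symm
    _ ≤ Real.exp M * ((Fintype.card D.A : ℝ) * (2 * (Real.exp M)⁻¹)) :=
      mul_le_mul_of_nonneg_left h5 h6.le
    _ = 2 * (Fintype.card D.A : ℝ) := by field_simp

theorem superexponential : ∀ᶠ n : ℕ in atTop, ∀ (D : Network) (k : ℝ),
    IsFlowExtension D k (semiorderPolytope n) →
      Real.log n ^ ((n : ℝ) / 100) ≤ (Fintype.card D.A : ℝ) := by
  have hlog : Tendsto (fun n : ℕ => Real.log n) atTop atTop :=
    Real.tendsto_log_atTop.comp tendsto_natCast_atTop_atTop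
  have hll : Tendsto (fun n : ℕ => Real.log (Real.log n)) atTop atTop :=
    Real.tendsto_log_atTop.comp hlog
  have hb1 : ∀ᶠ n : ℕ in atTop, Real.log n ≤ (1 / 420) * n := by
    have := tendsto_natCast_atTop_atTop.eventually
      (Real.isLittleO_log_id_atTop.bound (c := 1 / 420) (by norm_num))
    filter_upwards [this, eventually_ge_atTop 1] with n h1 h2
    have h5 : |(n : ℝ)| = n := abs_of_nonneg (Nat.cast_nonneg n)
    rw [id, Real.norm_eq_abs, Real.norm_eq_abs, h5] at h1
    exact (le_abs_self _).trans h1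
  have hb2 : ∀ᶠ n : ℕ in atTop, Real.log (Real.log n) ≤ (1 / 8) * Real.log n := by
    have := hlog.eventually
      (Real.isLittleO_log_id_atTop.bound (c := 1 / 8) (by norm_num))
    filter_upwards [this, hlog.eventually_ge_atTop 0] with n h1 h2
    rw [id, Real.norm_eq_abs, Real.norm_eq_abs, abs_of_nonneg h2] at h1
    exact (le_abs_self _).trans h1
  filter_upwards [hb1, hb2, hll.eventually_ge_atTop 20, eventually_ge_atTop 27] with
    n h1 h2 h3 h4 D k hext
  set L := Real.log n with hL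
  set l := Real.log L with hl
  have hn0 : (0 : ℝ) < n := by exact_mod_cast (show 0 < n by omega)
  have hL160 : 160 ≤ L := by linarith
  have hL0 : 0 < L := by linarith
  set s := Real.sqrt L with hs
  have hss : s * s = L := Real.mul_self_sqrt hL0.le
  have hs0 : 0 < s := Real.sqrt_pos.2 hL0
  have hs12 : 12 ≤ s := by
    by_contra h
    push Not at h
    nlinarith
  have hlogs : Real.log s = l / 2 := by
    have : l = Real.log s + Real.log s := by rw [hl, ← hss, Real.log_mul hs0.ne' hs0.ne']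
    linarith
  have hsL : s ≤ L := by nlinarith
  -- the choice of K and b
  set K := ⌊s⌋₊ with hK
  have hK1 : (K : ℝ) ≤ s := Nat.floor_le hs0.le
  have hK2 : s < K + 1 := Nat.lt_floor_add_one s
  have hK3 : s / 2 ≤ K := by linarith
  have hK11 : 11 ≤ K := by
    have h5 : (11 : ℝ) < K + 1 := by linarith
    have h6 : 11 < K + 1 := by exact_mod_cast h5
    omega
  have hK0 : (0 : ℝ) < K := by linarith
  set b := n / (20 * K) with hb
  have hb1 : 20 * K * b ≤ n := by
    rw [hb]; exact Nat.mul_div_le n (20 * K)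
  have hb2 : n < 20 * K * b + 20 * K := by
    rw [hb]
    have := Nat.lt_mul_div_succ n (show 0 < 20 * K by omega)
    linarith
  have hb2' : (n : ℝ) ≤ 20 * (K * b) + 20 * K := by
    have : (n : ℝ) < 20 * K * b + 20 * K := by exact_mod_cast hb2
    linarith
  have hKb : (n : ℝ) / 21 ≤ K * b := by
    have : (K : ℝ) ≤ (1 / 420) * n := by linarith
    linarith
  have hb0' : (0 : ℝ) < K * b := lt_of_lt_of_le (by positivity) hKb
  have hbpos : 1 ≤ b := by
    rcases Nat.eq_zero_or_pos b with h | h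
    · rw [h] at hb0'; simp at hb0'
    · exact h
  have hb0 : (0 : ℝ) < b := by exact_mod_cast hbpos
  have hbge : (n : ℝ) / (21 * s) ≤ b := by
    rw [div_le_iff₀ (by positivity)]
    have : (K : ℝ) * b ≤ s * b := mul_le_mul_of_nonneg_right hK1 hb0.le
    have h5 : (n : ℝ) ≤ 21 * (K * b) := by linarith
    nlinarith
  have hlogb : L - 4 - l / 2 ≤ Real.log b := by
    have h5 : Real.log (n / (21 * s)) ≤ Real.log b :=
      Real.log_le_log (by positivity) hbge
    rw [Real.log_div hn0.ne' (by positivity), Real.log_mul (by norm_num) hs0.ne', hlogs] at h5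
    have h21 : Real.log 21 ≤ 4 := by
      have h6 : Real.log 21 ≤ Real.log 32 := Real.log_le_log (by norm_num) (by norm_num)
      have h7 : Real.log 32 = 5 * Real.log 2 := by
        rw [show (32 : ℝ) = 2 ^ 5 by norm_num, Real.log_pow]; norm_num
      have := Real.log_two_lt_d9
      linarith
    linarith
  have hlogK : l / 2 - 1 ≤ Real.log K := by
    have h5 : Real.log (s / 2) ≤ Real.log K := Real.log_le_log (by positivity) hK3
    rw [Real.log_div hs0.ne' (by norm_num), hlogs] at h5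
    have := Real.log_two_lt_d9
    linarith
  have hl0 : 0 < l := by linarith
  have hls : l / 2 ≤ s := by
    have := Real.log_le_sub_one_of_pos hs0
    linarith
  have hM1 : (n : ℝ) * l / 84 ≤ b * (Real.log b - 2) := by
    have h5 : L / 2 ≤ Real.log b - 2 := by linarith
    calc (n : ℝ) * l / 84 = n * (l / 2) / 42 := by ring
      _ ≤ n * s / 42 := by gcongr
      _ = (n / (21 * s)) * (L / 2) := by
        rw [← hss]; field_simp; ring
      _ ≤ b * (Real.log b - 2) := by
        apply mul_le_mul hbge h5 (by positivity) hb0.le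
  have hM2 : (n : ℝ) * l / 84 ≤ (K * b : ℕ) * (Real.log K - 4) := by
    have h5 : l / 4 ≤ Real.log K - 4 := by linarith
    push_cast
    calc (n : ℝ) * l / 84 = (n / 21) * (l / 4) := by ring
      _ ≤ (K * b) * (Real.log K - 4) := by
        apply mul_le_mul hKb h5 (by positivity) hb0'.le
  have hN : J (K * (4 * b)) (4 * b) + 1 + K * (4 * b) ≤ n := by
    unfold J
    have h5 : 3 * (K * (4 * b)) + 6 * (4 * b) + 1 + K * (4 * b) = 16 * (K * b) + 24 * b + 1 := by
      ring
    rw [h5]
    have h6 : 11 * b ≤ K * b := Nat.mul_le_mul_right b hK11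
    have h7 : 20 * K * b = 20 * (K * b) := by ring
    omega
  have hfin := arcs_ge (by omega) hbpos hN hM1 hM2 D k hext
  have h5 : L ^ ((n : ℝ) / 100) = Real.exp (n * l / 100) := by
    rw [Real.rpow_def_of_pos hL0]; congr 1; rw [← hl]; ring
  rw [h5]
  have h6 : 2 * Real.exp (n * l / 100) ≤ Real.exp (n * l / 84) := by
    have h7 : (n : ℝ) * l / 84 = n * l / 100 + n * l / 525 := by ring
    rw [h7, Real.exp_add, mul_comm]
    apply mul_le_mul_of_nonneg_left _ (Real.exp_pos _).le
    have h8 : (1 : ℝ) ≤ n * l / 525 := by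
      have h9 : (27 : ℝ) ≤ n := by exact_mod_cast h4
      have h10 : (27 : ℝ) * 20 ≤ n * l := mul_le_mul h9 h3 (by norm_num) (by linarith)
      linarith
    have h11 := Real.add_one_le_exp ((n : ℝ) * l / 525)
    linarith
  linarith

end Pool.Agent.LibSemiorder
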